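import Mathlib

/-!
The coin-tossing measure on `2^I`.
-/

namespace Pool.Agent.MPa4e7db

open MeasureTheory

universe u

/-- The fair coin. -/
noncomputable def coin : Measure Bool :=
  (2 : ENNReal)⁻¹ • Measure.dirac true + (2 : ENNReal)⁻¹ • Measure.dirac false

instance : IsProbabilityMeasure coin := ⟨by
  simp [coin, ENNReal.inv_two_add_inv_two]⟩

/-- The product measure on `2^I`. -/
noncomputable def coinMeasure (I : Type u) : Measure (I → Bool) :=
  Measure.infinitePi (fun _ => coin)

end Pool.Agent.MPa4e7db
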