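import Mathlib

/-!
The measure algebra of a finite measure, as a complete Boolean algebra: measurable sets modulo
null sets.
-/

namespace Pool.Agent.MPa4e7db

open MeasureTheory Filter

universe u

variable {Ω : Type u} [MeasurableSpace Ω]

/-- Measurable sets, up to a.e. equality. -/
def aeSetoid (μ : Measure Ω) : Setoid {s : Set Ω // MeasurableSet s} where
  r s t := (s : Set Ω) =ᵐ[μ] (t : Set Ω)
  iseqv := ⟨fun _ => ae_eq_refl _, fun h => ae_eq_symm h, fun h1 h2 => ae_eq_trans h1 h2⟩

/-- The measure algebra of `μ`: measurable sets modulo null sets. -/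
def MeasureAlgebra (μ : Measure Ω) : Type u := Quotient (aeSetoid μ)

namespace MeasureAlgebra

variable {μ : Measure Ω}

/-- The class of a measurable set. -/
def cls (s : Set Ω) (hs : MeasurableSet s) : MeasureAlgebra μ := Quotient.mk (aeSetoid μ) ⟨s, hs⟩

theorem ind {p : MeasureAlgebra μ → Prop} (h : ∀ s (hs : MeasurableSet s), p (cls s hs))
    (a : MeasureAlgebra μ) : p a := Quotient.ind (fun s => h s.1 s.2) a

/-- A measurable representative. -/
noncomputable def rep (a : MeasureAlgebra μ) : Set Ω := (Quotient.out a).1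

theorem measurableSet_rep (a : MeasureAlgebra μ) : MeasurableSet (rep a) := (Quotient.out a).2

theorem cls_rep (a : MeasureAlgebra μ) : cls (rep a) (measurableSet_rep a) = a :=
  Quotient.out_eq a

theorem cls_eq_cls {s t : Set Ω} {hs : MeasurableSet s} {ht : MeasurableSet t} :
    (cls s hs : MeasureAlgebra μ) = cls t ht ↔ s =ᵐ[μ] t := Quotient.eq (r := aeSetoid μ)

theorem rep_cls {s : Set Ω} (hs : MeasurableSet s) : rep (cls s hs : MeasureAlgebra μ) =ᵐ[μ] s :=
  cls_eq_cls.mp (cls_rep (cls s hs : MeasureAlgebra μ))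

instance : LE (MeasureAlgebra μ) := ⟨fun a b =>
  Quotient.liftOn₂ a b (fun s t => (s : Set Ω) ≤ᵐ[μ] (t : Set Ω)) (by
    intro s t s' t' h1 h2
    have h1' : (s : Set Ω) =ᵐ[μ] (s' : Set Ω) := h1
    have h2' : (t : Set Ω) =ᵐ[μ] (t' : Set Ω) := h2
    exact propext ⟨fun h => h1'.symm.le.trans (h.trans h2'.le),
      fun h => h1'.le.trans (h.trans h2'.symm.le)⟩)⟩

theorem cls_le_cls {s t : Set Ω} {hs : MeasurableSet s} {ht : MeasurableSet t} :
    (cls s hs : MeasureAlgebra μ) ≤ cls t ht ↔ s ≤ᵐ[μ] t := Iff.rfl

theorem cls_le_cls_of_subset {s t : Set Ω} {hs : MeasurableSet s} {ht : MeasurableSet t}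
    (h : s ⊆ t) : (cls s hs : MeasureAlgebra μ) ≤ cls t ht :=
  cls_le_cls.mpr (LE.le.eventuallyLE h)

/-- Union of classes. -/
def sup' (a b : MeasureAlgebra μ) : MeasureAlgebra μ :=
  Quotient.liftOn₂ a b (fun s t => cls (s.1 ∪ t.1) (s.2.union t.2)) (by
    intro s t s' t' h1 h2
    exact cls_eq_cls.mpr (ae_eq_set_union h1 h2))

/-- Intersection of classes. -/
def inf' (a b : MeasureAlgebra μ) : MeasureAlgebra μ :=
  Quotient.liftOn₂ a b (fun s t => cls (s.1 ∩ t.1) (s.2.inter t.2)) (by
    intro s t s' t' h1 h2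
    exact cls_eq_cls.mpr (ae_eq_set_inter h1 h2))

/-- Complement of a class. -/
def compl' (a : MeasureAlgebra μ) : MeasureAlgebra μ :=
  Quotient.liftOn a (fun s => cls (s.1)ᶜ s.2.compl) (by
    intro s t h
    exact cls_eq_cls.mpr (ae_eq_set_compl_compl.mpr h))

instance : PartialOrder (MeasureAlgebra μ) where
  le_refl := by
    intro a; induction a using ind with | _ s hs => exact EventuallyLE.refl _ _
  le_trans := by
    intro a b c
    induction a using ind with | _ s hs =>
    induction b using ind with | _ t ht =>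
    induction c using ind with | _ r hr =>
    exact fun h1 h2 => EventuallyLE.trans h1 h2
  le_antisymm := by
    intro a b
    induction a using ind with | _ s hs =>
    induction b using ind with | _ t ht =>
    exact fun h1 h2 => cls_eq_cls.mpr (EventuallyLE.antisymm h1 h2)

instance : BooleanAlgebra (MeasureAlgebra μ) where
  sup := sup'
  inf := inf'
  compl := compl'
  top := cls Set.univ MeasurableSet.univ
  bot := cls ∅ MeasurableSet.empty
  le_sup_left := by
    intro a b
    induction a using ind with | _ s hs =>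
    induction b using ind with | _ t ht =>
    exact cls_le_cls_of_subset Set.subset_union_left
  le_sup_right := by
    intro a b
    induction a using ind with | _ s hs =>
    induction b using ind with | _ t ht =>
    exact cls_le_cls_of_subset Set.subset_union_right
  sup_le := by
    intro a b c
    induction a using ind with | _ s hs =>
    induction b using ind with | _ t ht =>
    induction c using ind with | _ r hr =>
    intro h1 h2
    exact (ae_le_set_union h1 h2).trans (Set.union_self r).le.eventuallyLE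
  inf_le_left := by
    intro a b
    induction a using ind with | _ s hs =>
    induction b using ind with | _ t ht =>
    exact cls_le_cls_of_subset Set.inter_subset_left
  inf_le_right := by
    intro a b
    induction a using ind with | _ s hs =>
    induction b using ind with | _ t ht =>
    exact cls_le_cls_of_subset Set.inter_subset_right
  le_inf := by
    intro a b c
    induction a using ind with | _ s hs =>
    induction b using ind with | _ t ht =>
    induction c using ind with | _ r hr =>
    intro h1 h2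
    exact (Set.inter_self s).ge.eventuallyLE.trans (ae_le_set_inter h1 h2)
  le_sup_inf := by
    intro a b c
    induction a using ind with | _ s hs =>
    induction b using ind with | _ t ht =>
    induction c using ind with | _ r hr =>
    exact cls_le_cls_of_subset (Set.union_inter_distrib_left s t r).ge
  inf_compl_le_bot := by
    intro a
    induction a using ind with | _ s hs =>
    exact cls_le_cls_of_subset (Set.inter_compl_self s).le
  top_le_sup_compl := by
    intro a
    induction a using ind with | _ s hs =>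
    exact cls_le_cls_of_subset (Set.union_compl_self s).ge
  le_top := by
    intro a
    induction a using ind with | _ s hs =>
    exact cls_le_cls_of_subset (Set.subset_univ s)
  bot_le := by
    intro a
    induction a using ind with | _ s hs =>
    exact cls_le_cls_of_subset (Set.empty_subset s)

theorem cls_sup {s t : Set Ω} (hs : MeasurableSet s) (ht : MeasurableSet t) :
    (cls s hs ⊔ cls t ht : MeasureAlgebra μ) = cls (s ∪ t) (hs.union ht) := rfl

theorem cls_inf {s t : Set Ω} (hs : MeasurableSet s) (ht : MeasurableSet t) :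
    (cls s hs ⊓ cls t ht : MeasureAlgebra μ) = cls (s ∩ t) (hs.inter ht) := rfl

theorem cls_compl {s : Set Ω} (hs : MeasurableSet s) :
    ((cls s hs)ᶜ : MeasureAlgebra μ) = cls sᶜ hs.compl := rfl

theorem cls_empty : (cls ∅ MeasurableSet.empty : MeasureAlgebra μ) = ⊥ := rfl

theorem cls_univ : (cls Set.univ MeasurableSet.univ : MeasureAlgebra μ) = ⊤ := rfl

theorem cls_eq_bot {s : Set Ω} {hs : MeasurableSet s} :
    (cls s hs : MeasureAlgebra μ) = ⊥ ↔ μ s = 0 := by
  rw [← cls_empty, cls_eq_cls, ae_eq_empty]

/-- The measure of an element. -/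
noncomputable def meas (a : MeasureAlgebra μ) : ENNReal := μ (rep a)

theorem meas_cls {s : Set Ω} (hs : MeasurableSet s) : meas (cls s hs : MeasureAlgebra μ) = μ s :=
  measure_congr (rep_cls hs)

theorem meas_mono {a b : MeasureAlgebra μ} (h : a ≤ b) : meas a ≤ meas b := by
  induction a using ind with | _ s hs =>
  induction b using ind with | _ t ht =>
  rw [meas_cls, meas_cls]
  exact measure_mono_ae h

/-- The countable supremum. -/
noncomputable def csup (f : ℕ → MeasureAlgebra μ) : MeasureAlgebra μ :=
  cls (⋃ n, rep (f n)) (MeasurableSet.iUnion fun n => measurableSet_rep _)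

theorem le_csup (f : ℕ → MeasureAlgebra μ) (n : ℕ) : f n ≤ csup f := by
  conv_lhs => rw [← cls_rep (f n)]
  exact cls_le_cls_of_subset (Set.subset_iUnion (fun n => rep (f n)) n)

theorem csup_le {f : ℕ → MeasureAlgebra μ} {b : MeasureAlgebra μ} (h : ∀ n, f n ≤ b) :
    csup f ≤ b := by
  rw [← cls_rep b]
  have h1 : ∀ n, rep (f n) ≤ᵐ[μ] rep b := by
    intro n
    have := h n
    rw [← cls_rep (f n), ← cls_rep b] at this
    exact this
  have h2 : ∀ᵐ x ∂μ, ∀ n, x ∈ rep (f n) → x ∈ rep b := ae_all_iff.mpr h1
  refine cls_le_cls.mpr ?_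
  filter_upwards [h2] with x hx hx2
  obtain ⟨n, hn⟩ := Set.mem_iUnion.mp hx2
  exact hx n hn

theorem exists_csup [IsFiniteMeasure μ] (S : Set (MeasureAlgebra μ)) :
    ∃ f : ℕ → MeasureAlgebra μ, (∀ n, f n ∈ S ∨ f n = ⊥) ∧ ∀ s ∈ S, s ≤ csup f := by
  classical
  let T : Set ENNReal := {r | ∃ f : ℕ → MeasureAlgebra μ, (∀ n, f n ∈ S ∨ f n = ⊥) ∧
    r = meas (csup f)}
  have hT : T.Nonempty := ⟨_, fun _ => ⊥, fun _ => Or.inr rfl, rfl⟩
  obtain ⟨r, -, hr, hrT⟩ := exists_seq_tendsto_sSup hT (OrderTop.bddAbove T)
  choose f hf hrf using hrT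
  let F : ℕ → MeasureAlgebra μ := fun n => f n.unpair.1 n.unpair.2
  have hF : ∀ n, F n ∈ S ∨ F n = ⊥ := fun n => hf _ _
  have h1 : ∀ k, csup (f k) ≤ csup F := by
    intro k
    apply csup_le
    intro n
    have := le_csup F (Nat.pair k n)
    simpa [F] using this
  have h2 : sSup T ≤ meas (csup F) := by
    apply le_of_tendsto' hr
    intro k
    rw [hrf]
    exact meas_mono (h1 k)
  refine ⟨F, hF, ?_⟩
  intro s hs
  let G : ℕ → MeasureAlgebra μ := fun n => match n with | 0 => s | n + 1 => F n
  have hG : ∀ n, G n ∈ S ∨ G n = ⊥ := by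
    intro n
    cases n with
    | zero => exact Or.inl hs
    | succ n => exact hF n
  have hFG : csup F ≤ csup G := csup_le fun n => le_csup G (n + 1)
  have hsG : s ≤ csup G := le_csup G 0
  have hmG : meas (csup G) ≤ meas (csup F) := (le_sSup ⟨G, hG, rfl⟩ : _ ≤ sSup T).trans h2
  have : csup G ≤ csup F := by
    have e1 : cls (rep (csup F)) (measurableSet_rep _) ≤ csup G := by rw [cls_rep]; exact hFG
    rw [← cls_rep (csup G)] at e1
    have e2 : rep (csup F) ≤ᵐ[μ] rep (csup G) := e1
    have e3 : rep (csup F) =ᵐ[μ] rep (csup G) :=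
      ae_eq_of_ae_subset_of_measure_ge e2 hmG (measurableSet_rep _).nullMeasurableSet
        (measure_ne_top _ _)
    rw [← cls_rep (csup G), ← cls_rep (csup F)]
    exact e3.symm.le
  exact hsG.trans this

noncomputable instance [IsFiniteMeasure μ] : CompleteBooleanAlgebra (MeasureAlgebra μ) :=
  { (inferInstance : BooleanAlgebra (MeasureAlgebra μ)) with
    sSup := fun S => csup (exists_csup S).choose
    isLUB_sSup := by
      intro S
      have h := (exists_csup S).choose_spec
      refine ⟨fun s hs => h.2 s hs, fun b hb => csup_le fun n => ?_⟩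
      rcases h.1 n with h1 | h1
      · exact hb h1
      · rw [h1]; exact bot_le
    sInf := fun S => (csup (exists_csup {a | aᶜ ∈ S}).choose)ᶜ
    isGLB_sInf := by
      intro S
      have h := (exists_csup {a | aᶜ ∈ S}).choose_spec
      refine ⟨fun s hs => ?_, fun b hb => ?_⟩
      · rw [compl_le_iff_compl_le]
        exact h.2 _ (by change sᶜᶜ ∈ S; rwa [compl_compl])
      · rw [le_compl_iff_le_compl]
        refine csup_le fun n => ?_
        rcases h.1 n with h1 | h1
        · rw [le_compl_iff_le_compl]; exact hb h1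
        · rw [h1]; exact bot_le }

/-- Suprema in the measure algebra are attained by countable subfamilies. -/
theorem exists_seq_iSup [IsFiniteMeasure μ] {ι : Type*} [Nonempty ι] (φ : ι → MeasureAlgebra μ) :
    ∃ g : ℕ → ι, (⨆ i, φ i) = ⨆ n, φ (g n) := by
  classical
  obtain ⟨f, hf1, hf2⟩ := exists_csup (Set.range φ)
  have h : ∀ n, ∃ i, f n ≤ φ i := by
    intro n
    rcases hf1 n with ⟨i, hi⟩ | h
    · exact ⟨i, hi.ge⟩
    · exact ⟨Classical.arbitrary ι, by rw [h]; exact bot_le⟩
  choose g hg using h
  refine ⟨g, le_antisymm ?_ (iSup_le fun n => le_iSup φ (g n))⟩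
  refine iSup_le fun i => (hf2 _ ⟨i, rfl⟩).trans ?_
  exact csup_le fun n => (hg n).trans (le_iSup (fun n => φ (g n)) n)

theorem iSup_cls [IsFiniteMeasure μ] {ι : Type*} [Countable ι] {s : ι → Set Ω}
    (hs : ∀ i, MeasurableSet (s i)) :
    (⨆ i, (cls (s i) (hs i) : MeasureAlgebra μ)) = cls (⋃ i, s i) (MeasurableSet.iUnion hs) := by
  apply le_antisymm
  · exact iSup_le fun i => cls_le_cls_of_subset (Set.subset_iUnion _ i)
  · rw [← cls_rep (⨆ i, (cls (s i) (hs i) : MeasureAlgebra μ))]
    have h1 : ∀ i, s i ≤ᵐ[μ] rep (⨆ i, (cls (s i) (hs i) : MeasureAlgebra μ)) := by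
      intro i
      have : (cls (s i) (hs i) : MeasureAlgebra μ) ≤ ⨆ i, (cls (s i) (hs i) : MeasureAlgebra μ) :=
        le_iSup (fun i => (cls (s i) (hs i) : MeasureAlgebra μ)) i
      conv_rhs at this => rw [← cls_rep (⨆ i, (cls (s i) (hs i) : MeasureAlgebra μ))]
      exact this
    have h2 := ae_all_iff.mpr h1
    refine cls_le_cls.mpr ?_
    filter_upwards [h2] with x hx hx2
    obtain ⟨n, hn⟩ := Set.mem_iUnion.mp hx2
    exact hx n hn

theorem iInf_cls [IsFiniteMeasure μ] {ι : Type*} [Countable ι] {s : ι → Set Ω}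
    (hs : ∀ i, MeasurableSet (s i)) :
    (⨅ i, (cls (s i) (hs i) : MeasureAlgebra μ)) = cls (⋂ i, s i) (MeasurableSet.iInter hs) := by
  have h := iSup_cls (μ := μ) (fun i => (hs i).compl)
  have h2 : (⨅ i, (cls (s i) (hs i) : MeasureAlgebra μ)) =
      (⨆ i, (cls (s i)ᶜ (hs i).compl : MeasureAlgebra μ))ᶜ := by
    rw [compl_iSup]
    congr 1
    ext i
    rw [← cls_compl, compl_compl]
  rw [h2, h, cls_compl]
  apply cls_eq_cls.mpr
  rw [Set.compl_iUnion]
  simp only [compl_compl]
  exact EventuallyEq.rfl

end MeasureAlgebra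

end Pool.Agent.MPa4e7db
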