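import Mathlib
import Pool.Agent.Lib.MP_a4e7db_lc.MeasAlg
import Pool.Agent.Lib.MP_a4e7db_lc.Coin0

/-!
The coin-tossing measure on `2^I`, coordinate sigma-algebras, supports and independence.
-/

namespace Pool.Agent.MPa4e7db

open MeasureTheory ProbabilityTheory

universe u

theorem coin_singleton (b : Bool) : coin {b} = 2⁻¹ := by
  cases b <;> simp [coin]

instance (I : Type u) : IsProbabilityMeasure (coinMeasure I) := by
  unfold coinMeasure; infer_instance

variable {I : Type u}

/-- The sigma-algebra generated by the coordinates in `C`. -/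
@[reducible] def Fsig (C : Set I) : MeasurableSpace (I → Bool) :=
  ⨆ i ∈ C, MeasurableSpace.comap (fun ω : I → Bool => ω i) inferInstance

theorem comap_le_pi (i : I) :
    MeasurableSpace.comap (fun ω : I → Bool => ω i) inferInstance ≤ MeasurableSpace.pi :=
  le_iSup (fun i => MeasurableSpace.comap (fun ω : I → Bool => ω i) inferInstance) i

theorem Fsig_le (C : Set I) : Fsig C ≤ MeasurableSpace.pi :=
  iSup_le fun i => iSup_le fun _ => comap_le_pi i

theorem Fsig_mono {C C' : Set I} (h : C ⊆ C') : Fsig C ≤ Fsig C' :=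
  iSup_le fun i => iSup_le fun hi =>
    le_iSup₂ (f := fun i (_ : i ∈ C') =>
      MeasurableSpace.comap (fun ω : I → Bool => ω i) inferInstance) i (h hi)

theorem measurableSet_coord {C : Set I} {i : I} (hi : i ∈ C) (s : Set Bool) :
    MeasurableSet[Fsig C] {ω : I → Bool | ω i ∈ s} := by
  have h : MeasurableSpace.comap (fun ω : I → Bool => ω i) inferInstance ≤ Fsig C :=
    le_iSup₂ (f := fun i (_ : i ∈ C) =>
      MeasurableSpace.comap (fun ω : I → Bool => ω i) inferInstance) i hi
  exact h _ ⟨s, MeasurableSet.of_discrete, rfl⟩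

theorem exists_countable_support {A : Set (I → Bool)} (hA : MeasurableSet A) :
    ∃ C : Set I, C.Countable ∧ MeasurableSet[Fsig C] A := by
  let G : MeasurableSpace (I → Bool) :=
    { MeasurableSet' := fun A => ∃ C : Set I, C.Countable ∧ MeasurableSet[Fsig C] A
      measurableSet_empty := ⟨∅, Set.countable_empty, @MeasurableSet.empty _ (Fsig ∅)⟩
      measurableSet_compl := fun A ⟨C, hC, hA⟩ => ⟨C, hC, hA.compl⟩
      measurableSet_iUnion := fun A hA => by
        choose C hC hA using hA
        refine ⟨⋃ n, C n, Set.countable_iUnion hC, ?_⟩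
        apply MeasurableSet.iUnion
        intro n
        exact Fsig_mono (Set.subset_iUnion C n) _ (hA n) }
  have h : (MeasurableSpace.pi : MeasurableSpace (I → Bool)) ≤ G := by
    refine iSup_le fun i => ?_
    rintro A ⟨s, -, rfl⟩
    exact ⟨{i}, Set.countable_singleton i, measurableSet_coord (Set.mem_singleton i) s⟩
  exact h A hA

theorem iIndep_coord :
    iIndep (fun i : I => MeasurableSpace.comap (fun ω : I → Bool => ω i) inferInstance)
      (coinMeasure I) := by
  have h := iIndepFun_infinitePi (ι := I) (Ω := fun _ => Bool) (𝓧 := fun _ => Bool)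
    (P := fun _ => coin) (X := fun _ b => b) (fun _ => measurable_id)
  exact h.iIndep

theorem indep_Fsig {C C' : Set I} (h : Disjoint C C') {S S' : Set (I → Bool)}
    (hS : MeasurableSet[Fsig C] S) (hS' : MeasurableSet[Fsig C'] S') :
    (coinMeasure I).real (S ∩ S') = (coinMeasure I).real S * (coinMeasure I).real S' := by
  have h1 := indep_iSup_of_disjoint comap_le_pi (iIndep_coord (I := I)) h
  have h2 := (Indep_iff _ _ _).mp h1 S S' hS hS'
  rw [measureReal_def, h2, ENNReal.toReal_mul]
  rfl

theorem coin_pair {a b : I} (hab : a ≠ b) (v : Bool) :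
    (coinMeasure I) {ω | ω a = v ∧ ω b = v} = 4⁻¹ := by
  classical
  have h1 : {ω : I → Bool | ω a = v ∧ ω b = v} =
      Set.pi (({a, b} : Finset I) : Set I) (fun _ => {v}) := by
    ext ω
    simp [Set.mem_pi]
  rw [h1, coinMeasure, Measure.infinitePi_pi _ (fun _ _ => MeasurableSet.of_discrete)]
  simp only [coin_singleton, Finset.prod_const, Finset.card_pair hab]
  rw [← ENNReal.inv_pow]
  norm_num

theorem coin_eq {a b : I} (hab : a ≠ b) :
    (coinMeasure I).real {ω | ω a = ω b} = 1 / 2 := by
  have h1 : {ω : I → Bool | ω a = ω b} =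
      {ω | ω a = true ∧ ω b = true} ∪ {ω | ω a = false ∧ ω b = false} := by
    ext ω
    simp only [Set.mem_ofPred_eq, Set.mem_union]
    cases ω a <;> cases ω b <;> simp
  have hm : ∀ v : Bool, MeasurableSet {ω : I → Bool | ω a = v ∧ ω b = v} := by
    intro v
    exact (measurableSet_eq_fun (measurable_pi_apply a) measurable_const).inter
      (measurableSet_eq_fun (measurable_pi_apply b) measurable_const)
  have hd : Disjoint {ω : I → Bool | ω a = true ∧ ω b = true}
      {ω | ω a = false ∧ ω b = false} := by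
    rw [Set.disjoint_left]
    rintro ω ⟨h, -⟩ ⟨h', -⟩
    rw [h] at h'
    exact Bool.noConfusion h'
  rw [h1, measureReal_union hd (hm false), measureReal_def, measureReal_def, coin_pair hab,
    coin_pair hab]
  norm_num

theorem measurableSet_eq_coord {C : Set I} {a b : I} (ha : a ∈ C) (hb : b ∈ C) :
    MeasurableSet[Fsig C] {ω : I → Bool | ω a = ω b} := by
  have h1 : {ω : I → Bool | ω a = ω b} =
      ({ω | ω a ∈ ({true} : Set Bool)} ∩ {ω | ω b ∈ ({true} : Set Bool)}) ∪
      ({ω | ω a ∈ ({false} : Set Bool)} ∩ {ω | ω b ∈ ({false} : Set Bool)}) := by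
    ext ω
    simp only [Set.mem_ofPred_eq, Set.mem_union, Set.mem_inter_iff, Set.mem_singleton_iff]
    cases ω a <;> cases ω b <;> simp
  rw [h1]
  exact ((measurableSet_coord ha _).inter (measurableSet_coord hb _)).union
    ((measurableSet_coord ha _).inter (measurableSet_coord hb _))

/-- Agreement of the first `n` fresh bits of `m` and `m'`. -/
def agree (e : ℕ × ℕ → I) (n m m' : ℕ) : Set (I → Bool) :=
  {ω | ∀ j < n, ω (e (m, j)) = ω (e (m', j))}

theorem agree_succ (e : ℕ × ℕ → I) (n m m' : ℕ) :
    agree e (n + 1) m m' = agree e n m m' ∩ {ω | ω (e (m, n)) = ω (e (m', n))} := by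
  ext ω
  simp only [agree, Set.mem_ofPred_eq, Set.mem_inter_iff]
  constructor
  · intro h
    exact ⟨fun j hj => h j (by omega), h n (by omega)⟩
  · rintro ⟨h1, h2⟩ j hj
    rcases Nat.lt_succ_iff_lt_or_eq.mp hj with h3 | h3
    · exact h1 j h3
    · rw [h3]; exact h2

theorem agree_indep {e : ℕ × ℕ → I} (he : Function.Injective e) {C : Set I}
    (heC : ∀ x, e x ∉ C) {m m' : ℕ} (hm : m ≠ m') (n : ℕ) {S : Set (I → Bool)}
    (hS : MeasurableSet[Fsig C] S) :
    (coinMeasure I).real (S ∩ agree e n m m') = (1 / 2) ^ n * (coinMeasure I).real S ∧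
      MeasurableSet[Fsig (C ∪ e '' {x | x.2 < n})] (S ∩ agree e n m m') := by
  induction n with
  | zero =>
    have h1 : agree e 0 m m' = Set.univ := by
      ext ω; simp [agree]
    rw [h1, Set.inter_univ]
    refine ⟨by simp, Fsig_mono Set.subset_union_left _ hS⟩
  | succ n ih =>
    obtain ⟨ih1, ih2⟩ := ih
    rw [agree_succ, ← Set.inter_assoc]
    have hne : e (m, n) ≠ e (m', n) := fun h => hm (congrArg Prod.fst (he h))
    have hdisj : Disjoint (C ∪ e '' {x | x.2 < n}) ({e (m, n), e (m', n)} : Set I) := by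
      rw [Set.disjoint_right]
      rintro i (rfl | rfl) (h | ⟨x, hx, hx2⟩)
      · exact heC _ h
      · have h3 := he hx2
        rw [h3] at hx
        exact absurd (show n < n from hx) (lt_irrefl n)
      · exact heC _ h
      · have h3 := he hx2
        rw [h3] at hx
        exact absurd (show n < n from hx) (lt_irrefl n)
    constructor
    · rw [indep_Fsig hdisj ih2 (measurableSet_eq_coord (Set.mem_insert _ _)
        (Set.mem_insert_of_mem _ (Set.mem_singleton _))), ih1, coin_eq hne]
      ring
    · have h1 : MeasurableSet[Fsig (C ∪ e '' {x | x.2 < n + 1})] (S ∩ agree e n m m') := by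
        refine Fsig_mono (Set.union_subset_union_right _ (Set.image_mono ?_)) _ ih2
        intro x hx
        exact Nat.lt_succ_of_lt hx
      refine h1.inter ?_
      apply measurableSet_eq_coord
      · exact Or.inr ⟨(m, n), Nat.lt_succ_self n, rfl⟩
      · exact Or.inr ⟨(m', n), Nat.lt_succ_self n, rfl⟩

theorem measurableSet_agree (e : ℕ × ℕ → I) (n m m' : ℕ) : MeasurableSet (agree e n m m') := by
  have h1 : agree e n m m' = ⋂ j, ⋂ (_ : j < n), {ω | ω (e (m, j)) = ω (e (m', j))} := by
    ext ω; simp [agree]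
  rw [h1]
  refine MeasurableSet.iInter fun j => MeasurableSet.iInter fun _ => ?_
  exact measurableSet_eq_fun (measurable_pi_apply _) (measurable_pi_apply _)

end Pool.Agent.MPa4e7db
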