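import Mathlib

/-!
Boolean-valued names over a complete Boolean algebra `B`, the Boolean values of equality and
membership (the Boolean-valued model `V^B`), and the set-theoretic formula expressing that there
is a Laver ultrafilter.
-/

namespace Pool.Agent.MPa4e7db

universe u

/-- `B`-names: a name is a (small) family of names, each with a Boolean value. -/
inductive BName (B : Type u) : Type (u + 1)
  | mk (ι : Type u) (elt : ι → BName B) (val : ι → B) : BName B

variable {B : Type u} [CompleteBooleanAlgebra B]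

/-- The Boolean value of `x = y`. -/
def eqB : BName B → BName B → B
  | BName.mk ι x a, BName.mk κ y b =>
    (⨅ i : ι, a i ⇨ ⨆ j : κ, b j ⊓ eqB (x i) (y j)) ⊓
      (⨅ j : κ, b j ⇨ ⨆ i : ι, a i ⊓ eqB (x i) (y j))

/-- The Boolean value of `x ∈ y`. -/
def memB (x : BName B) : BName B → B
  | BName.mk κ y b => ⨆ j : κ, b j ⊓ eqB x (y j)

/-! ### The formulas, as Boolean values -/

/-- The Boolean value of a biconditional. -/
def iffB (a b : B) : B := (a ⇨ b) ⊓ (b ⇨ a)

/-- `x ⊆ y`. -/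
def subB (x y : BName B) : B := ⨅ z : BName B, memB z x ⇨ memB z y

/-- `e = ∅`. -/
def isEmptyB (e : BName B) : B := ⨅ z : BName B, (memB z e)ᶜ

/-- `z = {x, y}`. -/
def isUPairB (z x y : BName B) : B := ⨅ t : BName B, iffB (memB t z) (eqB t x ⊔ eqB t y)

/-- `z = (x, y)` (Kuratowski pair). -/
def isOPairB (z x y : BName B) : B :=
  ⨆ a : BName B, ⨆ b : BName B, isUPairB a x x ⊓ isUPairB b x y ⊓ isUPairB z a b

/-- `z = x ∩ y`. -/
def isInterB (z x y : BName B) : B := ⨅ t : BName B, iffB (memB t z) (memB t x ⊓ memB t y)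

/-- `z = x \ y`. -/
def isDiffB (z x y : BName B) : B := ⨅ t : BName B, iffB (memB t z) (memB t x ⊓ (memB t y)ᶜ)

/-- `s = n ∪ {n}`. -/
def isSuccB (s n : BName B) : B := ⨅ t : BName B, iffB (memB t s) (memB t n ⊔ eqB t n)

/-- `v` is an inductive set: it contains the empty set and is closed under successor. -/
def isInductiveB (v : BName B) : B :=
  (⨆ e : BName B, isEmptyB e ⊓ memB e v) ⊓
    ⨅ n : BName B, memB n v ⇨ ⨆ s : BName B, isSuccB s n ⊓ memB s v

/-- `w = ω`: it is the least inductive set. -/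
def isOmegaB (w : BName B) : B :=
  isInductiveB w ⊓ ⨅ v : BName B, isInductiveB v ⇨ subB w v

/-- `(x, y) ∈ f`. -/
def relB (f x y : BName B) : B := ⨆ z : BName B, isOPairB z x y ⊓ memB z f

/-- `f` is a function with domain `d`. -/
def isFunOnB (f d : BName B) : B :=
  (⨅ z : BName B, memB z f ⇨ ⨆ x : BName B, ⨆ y : BName B, memB x d ⊓ isOPairB z x y) ⊓
  (⨅ x : BName B, memB x d ⇨ ⨆ y : BName B, relB f x y) ⊓
  (⨅ x : BName B, ⨅ y : BName B, ⨅ y' : BName B, relB f x y ⊓ relB f x y' ⇨ eqB y y')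

/-- `f` is an injective function from `d` into `k`. -/
def isInjIntoB (f d k : BName B) : B :=
  isFunOnB f d ⊓
  (⨅ x : BName B, ⨅ y : BName B, relB f x y ⇨ memB y k) ⊓
  (⨅ x : BName B, ⨅ x' : BName B, ⨅ y : BName B, relB f x y ⊓ relB f x' y ⇨ eqB x x')

/-- `|d| ≤ |k|`. -/
def cardLeB (d k : BName B) : B := ⨆ f : BName B, isInjIntoB f d k

/-- `A` is a partition of `w`: a set of nonempty pairwise disjoint subsets of `w` covering `w`. -/
def isPartitionB (A w : BName B) : B :=
  (⨅ a : BName B, memB a A ⇨ subB a w ⊓ ⨆ m : BName B, memB m a) ⊓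
  (⨅ a : BName B, ⨅ a' : BName B,
    memB a A ⊓ memB a' A ⊓ (⨆ m : BName B, memB m a ⊓ memB m a') ⇨ eqB a a') ⊓
  (⨅ m : BName B, memB m w ⇨ ⨆ a : BName B, memB a A ⊓ memB m a)

/-- `A` is finite: `|A| ≤ |k|` for some `k ∈ w` (used with `w = ω`). -/
def isFiniteB (A w : BName B) : B := ⨆ k : BName B, memB k w ⊓ cardLeB A k

/-- `x` meets at most `|s|` elements of `A`: the set `C` of all elements of `A` that meet `x`
satisfies `|C| ≤ |s|`. -/
def meetsAtMostB (x A s : BName B) : B :=
  ⨆ C : BName B,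
    (⨅ a : BName B, iffB (memB a C) (memB a A ⊓ ⨆ m : BName B, memB m x ⊓ memB m a)) ⊓ cardLeB C s

/-- `U` is an ultrafilter on the set `w`. -/
def isUltrafilterB (U w : BName B) : B :=
  (⨅ x : BName B, memB x U ⇨ subB x w) ⊓
  memB w U ⊓
  (⨅ e : BName B, isEmptyB e ⇨ (memB e U)ᶜ) ⊓
  (⨅ x : BName B, ⨅ y : BName B, memB x U ⊓ subB x y ⊓ subB y w ⇨ memB y U) ⊓
  (⨅ x : BName B, ⨅ y : BName B, ⨅ z : BName B,
    memB x U ⊓ memB y U ⊓ isInterB z x y ⇨ memB z U) ⊓
  (⨅ x : BName B, ⨅ y : BName B, subB x w ⊓ isDiffB y w x ⇨ memB x U ⊔ memB y U)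

/-- `U` contains no singleton `{n}` with `n ∈ w`. -/
def isNonprincipalB (U w : BName B) : B :=
  ⨅ n : BName B, ⨅ s : BName B, memB n w ⊓ isUPairB s n n ⇨ (memB s U)ᶜ

/-- `P` is a sequence (a function with domain `w = ω`) of partitions of `ω` into finitely many
pieces. -/
def isPartitionSeqB (P w : BName B) : B :=
  isFunOnB P w ⊓
    ⨅ n : BName B, ⨅ A : BName B, relB P n A ⇨ isPartitionB A w ⊓ isFiniteB A w

/-- `U` is a Laver ultrafilter on `w = ω`: a nonprincipal ultrafilter such that for every sequence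
`(P_n)` of partitions of `ω` into finitely many pieces there is `x ∈ U` which, for every `n`,
meets at most `n + 1` pieces of `P_n`. -/
def isLaverUltrafilterB (U w : BName B) : B :=
  isUltrafilterB U w ⊓ isNonprincipalB U w ⊓
    ⨅ P : BName B, isPartitionSeqB P w ⇨
      ⨆ x : BName B, memB x U ⊓
        ⨅ n : BName B, ⨅ A : BName B, ⨅ s : BName B,
          relB P n A ⊓ isSuccB s n ⇨ meetsAtMostB x A s

/-- The Boolean value of the sentence: there is a Laver ultrafilter on `ω`. -/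
def laverUltrafilterExists (B : Type u) [CompleteBooleanAlgebra B] : B :=
  ⨆ w : BName B, isOmegaB w ⊓ ⨆ U : BName B, isLaverUltrafilterB U w

end Pool.Agent.MPa4e7db
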