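import Mathlib
import Pool.Agent.Lib.MP_a4e7db_lc.Names

/-!
Basic theory of the Boolean-valued model: reflexivity, symmetry, transitivity, substitution,
extensionality, pairs, natural numbers and omega.
-/

namespace Pool.Agent.MPa4e7db

universe u v

section Logic

variable {B : Type v} [CompleteBooleanAlgebra B]

theorem iSup_elim {ι : Sort*} {p ψ : B} {φ : ι → B} (h : p ≤ ⨆ i, φ i)
    (h2 : ∀ i q, q ≤ p → q ≤ φ i → q ≤ ψ) : p ≤ ψ := by
  have h3 : p = ⨆ i, p ⊓ φ i := by
    rw [← inf_iSup_eq]; exact (inf_eq_left.mpr h).symm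
  rw [h3]
  exact iSup_le fun i => h2 i _ inf_le_left inf_le_right

theorem sup_elim {p a b ψ : B} (h : p ≤ a ⊔ b) (h1 : ∀ q, q ≤ p → q ≤ a → q ≤ ψ)
    (h2 : ∀ q, q ≤ p → q ≤ b → q ≤ ψ) : p ≤ ψ := by
  have h3 : p = (p ⊓ a) ⊔ (p ⊓ b) := by
    rw [← inf_sup_left]; exact (inf_eq_left.mpr h).symm
  rw [h3]
  exact sup_le (h1 _ inf_le_left inf_le_right) (h2 _ inf_le_left inf_le_right)

theorem himp_intro {p a b : B} (h : ∀ q, q ≤ p → q ≤ a → q ≤ b) : p ≤ a ⇨ b := by
  rw [le_himp_iff]
  exact h _ inf_le_left inf_le_right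

theorem himp_mp {p a b : B} (h : p ≤ a ⇨ b) (ha : p ≤ a) : p ≤ b := by
  rw [le_himp_iff] at h
  exact le_trans (le_inf le_rfl ha) h

theorem compl_intro {p a : B} (h : ∀ q, q ≤ p → q ≤ a → q = ⊥) : p ≤ aᶜ := by
  rw [← himp_bot]
  exact himp_intro fun q hq ha => (h q hq ha).le

theorem compl_mp {p a b : B} (h : p ≤ aᶜ) (ha : p ≤ a) : p ≤ b := by
  have : p ≤ a ⊓ aᶜ := le_inf ha h
  rw [inf_compl_self] at this
  exact this.trans bot_le

theorem iffB_mp {p a b : B} (h : p ≤ iffB a b) (ha : p ≤ a) : p ≤ b :=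
  himp_mp (h.trans inf_le_left) ha

theorem iffB_mpr {p a b : B} (h : p ≤ iffB a b) (hb : p ≤ b) : p ≤ a :=
  himp_mp (h.trans inf_le_right) hb

theorem iffB_intro {p a b : B} (h1 : ∀ q, q ≤ p → q ≤ a → q ≤ b)
    (h2 : ∀ q, q ≤ p → q ≤ b → q ≤ a) : p ≤ iffB a b :=
  le_inf (himp_intro h1) (himp_intro h2)

theorem iffB_eq_top {a b : B} (h : a = b) : iffB a b = ⊤ := by
  subst h; simp [iffB]

theorem iInf_mp {ι : Sort*} {p : B} {φ : ι → B} (h : p ≤ ⨅ i, φ i) (i : ι) : p ≤ φ i :=
  h.trans (iInf_le _ _)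

theorem iSup_intro {ι : Sort*} {p : B} {φ : ι → B} (i : ι) (h : p ≤ φ i) : p ≤ ⨆ i, φ i :=
  le_iSup_of_le i h

end Logic

variable {B : Type u} [CompleteBooleanAlgebra B]

theorem eqB_mk (ι κ : Type u) (x : ι → BName B) (y : κ → BName B) (a : ι → B) (b : κ → B) :
    eqB (BName.mk ι x a) (BName.mk κ y b) =
      (⨅ i : ι, a i ⇨ memB (x i) (BName.mk κ y b)) ⊓
      (⨅ j : κ, b j ⇨ ⨆ i : ι, a i ⊓ eqB (x i) (y j)) := rfl

theorem memB_mk (x : BName B) (κ : Type u) (y : κ → BName B) (b : κ → B) :
    memB x (BName.mk κ y b) = ⨆ j : κ, b j ⊓ eqB x (y j) := rfl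

theorem eqB_refl (x : BName B) : eqB x x = ⊤ := by
  induction x with
  | mk ι x a ih =>
    simp only [eqB]
    rw [inf_eq_top_iff]
    constructor
    · rw [iInf_eq_top]
      intro i
      rw [himp_eq_top_iff]
      refine le_iSup_of_le i ?_
      rw [ih i, inf_top_eq]
    · rw [iInf_eq_top]
      intro i
      rw [himp_eq_top_iff]
      refine le_iSup_of_le i ?_
      rw [ih i, inf_top_eq]

theorem le_eqB_refl (p : B) (x : BName B) : p ≤ eqB x x := by
  rw [eqB_refl]; exact le_top

theorem eqB_symm (x y : BName B) : eqB x y = eqB y x := by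
  induction x generalizing y with
  | mk ι x a ih =>
    cases y with
    | mk κ y b =>
      simp only [eqB]
      rw [inf_comm]
      congr 1
      · congr 1; ext j; congr 1; congr 1; ext i; rw [ih]
      · congr 1; ext j; congr 1; congr 1; ext i; rw [ih]

theorem eqB.symm {p : B} {x y : BName B} (h : p ≤ eqB x y) : p ≤ eqB y x := by
  rwa [eqB_symm]

theorem eqB.trans {p : B} {x y z : BName B} (h1 : p ≤ eqB x y) (h2 : p ≤ eqB y z) :
    p ≤ eqB x z := by
  induction x generalizing y z p with
  | mk ι x a ih =>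
    cases y with
    | mk κ y b =>
      cases z with
      | mk l z c =>
        rw [eqB_mk] at h1 h2 ⊢
        rw [le_inf_iff] at h1 h2 ⊢
        obtain ⟨h1a, h1b⟩ := h1
        obtain ⟨h2a, h2b⟩ := h2
        constructor
        · refine le_iInf fun i => himp_intro fun q hq hqa => ?_
          have h3 := himp_mp (hq.trans (iInf_mp h1a i)) hqa
          rw [memB_mk] at h3
          refine iSup_elim h3 fun j r hr hrj => ?_
          have hrb : r ≤ b j := hrj.trans inf_le_left
          have h4 := himp_mp ((hr.trans hq).trans (iInf_mp h2a j)) hrb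
          rw [memB_mk] at h4
          refine iSup_elim h4 fun k s hs hsk => ?_
          rw [memB_mk]
          refine iSup_intro k (le_inf (hsk.trans inf_le_left) ?_)
          exact ih i ((hs.trans hrj).trans inf_le_right) (hsk.trans inf_le_right)
        · refine le_iInf fun k => himp_intro fun q hq hqc => ?_
          have h3 := himp_mp (hq.trans (iInf_mp h2b k)) hqc
          refine iSup_elim h3 fun j r hr hrj => ?_
          have hrb : r ≤ b j := hrj.trans inf_le_left
          have h4 := himp_mp ((hr.trans hq).trans (iInf_mp h1b j)) hrb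
          refine iSup_elim h4 fun i s hs hsi => ?_
          refine iSup_intro i (le_inf (hsi.trans inf_le_left) ?_)
          exact ih i (hsi.trans inf_le_right) ((hs.trans hrj).trans inf_le_right)

theorem memB_congr_left {p : B} {x y z : BName B} (h1 : p ≤ eqB x y) (h2 : p ≤ memB x z) :
    p ≤ memB y z := by
  cases z with
  | mk κ z b =>
    rw [memB_mk] at h2 ⊢
    refine iSup_elim h2 fun j r hr hrj => ?_
    exact iSup_intro j (le_inf (hrj.trans inf_le_left)
      (eqB.trans (eqB.symm (hr.trans h1)) (hrj.trans inf_le_right)))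

theorem memB_of_val {ι : Type u} (x : ι → BName B) (a : ι → B) (i : ι) :
    a i ≤ memB (x i) (BName.mk ι x a) := by
  rw [memB_mk]
  refine iSup_intro i (le_inf le_rfl (le_eqB_refl _ _))

theorem memB_congr_right {p : B} {x y z : BName B} (h1 : p ≤ eqB x y) (h2 : p ≤ memB z x) :
    p ≤ memB z y := by
  cases x with
  | mk ι x a =>
    cases y with
    | mk κ y b =>
      rw [eqB_mk, le_inf_iff] at h1
      rw [memB_mk] at h2
      refine iSup_elim h2 fun i r hr hri => ?_
      have h3 := himp_mp (hr.trans (iInf_mp h1.1 i)) (hri.trans inf_le_left)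
      exact memB_congr_left (eqB.symm (hri.trans inf_le_right)) h3

theorem eqB_ext {p : B} {x y : BName B} (h1 : ∀ z q, q ≤ p → q ≤ memB z x → q ≤ memB z y)
    (h2 : ∀ z q, q ≤ p → q ≤ memB z y → q ≤ memB z x) : p ≤ eqB x y := by
  cases x with
  | mk ι x a =>
    cases y with
    | mk κ y b =>
      rw [eqB_mk, le_inf_iff]
      constructor
      · refine le_iInf fun i => himp_intro fun q hq hqa => ?_
        exact h1 _ _ hq (hqa.trans (memB_of_val x a i))
      · refine le_iInf fun j => himp_intro fun q hq hqb => ?_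
        have h3 := h2 _ _ hq (hqb.trans (memB_of_val y b j))
        rw [memB_mk] at h3
        refine iSup_elim h3 fun i r hr hri => ?_
        exact iSup_intro i (le_inf (hri.trans inf_le_left) (eqB.symm (hri.trans inf_le_right)))

/-! ### Extensional functions -/

/-- `φ` respects Boolean-valued equality. -/
def Ext (φ : BName B → B) : Prop := ∀ ⦃p : B⦄ ⦃x y : BName B⦄, p ≤ eqB x y → p ≤ φ x → p ≤ φ y

theorem ext_const (a : B) : Ext (fun _ : BName B => a) := fun _ _ _ _ h => h

theorem ext_memB_left (z : BName B) : Ext (fun x => memB x z) := fun _ _ _ h1 h2 =>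
  memB_congr_left h1 h2

theorem ext_memB_right (z : BName B) : Ext (fun x => memB z x) := fun _ _ _ h1 h2 =>
  memB_congr_right h1 h2

theorem ext_eqB_left (z : BName B) : Ext (fun x => eqB x z) := fun _ _ _ h1 h2 =>
  eqB.trans (eqB.symm h1) h2

theorem ext_eqB_right (z : BName B) : Ext (fun x => eqB z x) := fun _ _ _ h1 h2 =>
  eqB.trans h2 h1

theorem ext_inf {φ ψ : BName B → B} (h1 : Ext φ) (h2 : Ext ψ) : Ext (fun x => φ x ⊓ ψ x) := by
  intro p x y h h3
  rw [le_inf_iff] at h3 ⊢
  exact ⟨h1 h h3.1, h2 h h3.2⟩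

theorem ext_sup {φ ψ : BName B → B} (h1 : Ext φ) (h2 : Ext ψ) : Ext (fun x => φ x ⊔ ψ x) := by
  intro p x y h h3
  exact sup_elim h3 (fun q hq h4 => (h1 (hq.trans h) h4).trans le_sup_left)
    (fun q hq h4 => (h2 (hq.trans h) h4).trans le_sup_right)

theorem ext_himp {φ ψ : BName B → B} (h1 : Ext φ) (h2 : Ext ψ) : Ext (fun x => φ x ⇨ ψ x) := by
  intro p x y h h3
  refine himp_intro fun q hq hq2 => ?_
  have h4 : q ≤ φ x := h1 (eqB.symm (hq.trans h)) hq2
  exact h2 (hq.trans h) (himp_mp (hq.trans h3) h4)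

theorem ext_compl {φ : BName B → B} (h1 : Ext φ) : Ext (fun x => (φ x)ᶜ) := by
  have : (fun x => (φ x)ᶜ) = (fun x => φ x ⇨ ⊥) := by ext x; rw [himp_bot]
  rw [this]
  exact ext_himp h1 (ext_const _)

theorem ext_iInf {ι : Sort*} {φ : ι → BName B → B} (h : ∀ i, Ext (φ i)) :
    Ext (fun x => ⨅ i, φ i x) := by
  intro p x y h1 h2
  exact le_iInf fun i => h i h1 (iInf_mp h2 i)

theorem ext_iSup {ι : Sort*} {φ : ι → BName B → B} (h : ∀ i, Ext (φ i)) :
    Ext (fun x => ⨆ i, φ i x) := by
  intro p x y h1 h2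
  exact iSup_elim h2 fun i q hq hq2 => iSup_intro i (h i (hq.trans h1) hq2)

theorem ext_iffB {φ ψ : BName B → B} (h1 : Ext φ) (h2 : Ext ψ) :
    Ext (fun x => iffB (φ x) (ψ x)) :=
  ext_inf (ext_himp h1 h2) (ext_himp h2 h1)

theorem Ext.subst {φ : BName B → B} (hφ : Ext φ) {p : B} {x y : BName B} (h : p ≤ eqB x y)
    (h2 : p ≤ φ x) : p ≤ φ y := hφ h h2

/-! ### Pairs -/

/-- The name of `{x, y}`. -/
def upair (x y : BName B) : BName B := BName.mk (ULift.{u} Bool)
  (fun b => match b.down with | true => x | false => y) (fun _ => ⊤)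

theorem memB_upair (t x y : BName B) : memB t (upair x y) = eqB t x ⊔ eqB t y := by
  rw [upair, memB_mk]
  apply le_antisymm
  · refine iSup_le fun b => ?_
    rcases b with ⟨b⟩
    cases b
    · exact inf_le_right.trans le_sup_right
    · exact inf_le_right.trans le_sup_left
  · refine sup_le ?_ ?_
    · exact iSup_intro ⟨true⟩ (le_inf le_top le_rfl)
    · exact iSup_intro ⟨false⟩ (le_inf le_top le_rfl)

theorem eqB_of_iff {N z : BName B} {φ : BName B → B} (hN : ∀ t, memB t N = φ t) :
    (⨅ t, iffB (memB t z) (φ t)) = eqB z N := by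
  apply le_antisymm
  · apply eqB_ext
    · intro t q hq hqt
      rw [hN]
      exact iffB_mp (iInf_mp hq t) hqt
    · intro t q hq hqt
      rw [hN] at hqt
      exact iffB_mpr (iInf_mp hq t) hqt
  · refine le_iInf fun t => iffB_intro ?_ ?_
    · intro q hq hqt
      rw [← hN]
      exact memB_congr_right hq hqt
    · intro q hq hqt
      rw [← hN] at hqt
      exact memB_congr_right (eqB.symm hq) hqt

theorem isUPairB_eq (z x y : BName B) : isUPairB z x y = eqB z (upair x y) :=
  eqB_of_iff (fun t => memB_upair t x y)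

/-- The name of the ordered pair `(x, y)`. -/
def opair (x y : BName B) : BName B := upair (upair x x) (upair x y)

theorem iSup_eqB {N : BName B} {φ : BName B → B} (hφ : Ext φ) :
    (⨆ z, eqB z N ⊓ φ z) = φ N := by
  apply le_antisymm
  · refine iSup_le fun z => ?_
    exact hφ (inf_le_left) (inf_le_right)
  · exact iSup_intro N (le_inf (le_eqB_refl _ _) le_rfl)

theorem iInf_eqB {N : BName B} {φ : BName B → B} (hφ : Ext φ) :
    (⨅ z, eqB z N ⇨ φ z) = φ N := by
  apply le_antisymm
  · exact himp_mp (iInf_mp le_rfl N) (le_eqB_refl _ _)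
  · refine le_iInf fun z => himp_intro fun q hq hqz => ?_
    exact hφ (eqB.symm hqz) hq

theorem ext_upair_left (y : BName B) {φ : BName B → B} (hφ : Ext φ) :
    Ext (fun x => φ (upair x y)) := by
  intro p x x' h h2
  refine hφ (eqB_ext ?_ ?_) h2
  · intro z q hq hz
    rw [memB_upair] at hz ⊢
    exact sup_elim hz (fun r hr h3 => (eqB.trans h3 ((hr.trans hq).trans h)).trans le_sup_left)
      (fun r hr h3 => h3.trans le_sup_right)
  · intro z q hq hz
    rw [memB_upair] at hz ⊢
    exact sup_elim hz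
      (fun r hr h3 => (eqB.trans h3 (eqB.symm ((hr.trans hq).trans h))).trans le_sup_left)
      (fun r hr h3 => h3.trans le_sup_right)

theorem upair_congr {p : B} {x x' y y' : BName B} (h1 : p ≤ eqB x x') (h2 : p ≤ eqB y y') :
    p ≤ eqB (upair x y) (upair x' y') := by
  apply eqB_ext
  · intro z q hq hz
    rw [memB_upair] at hz ⊢
    exact sup_elim hz (fun r hr h3 => (eqB.trans h3 ((hr.trans hq).trans h1)).trans le_sup_left)
      (fun r hr h3 => (eqB.trans h3 ((hr.trans hq).trans h2)).trans le_sup_right)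
  · intro z q hq hz
    rw [memB_upair] at hz ⊢
    exact sup_elim hz
      (fun r hr h3 => (eqB.trans h3 (eqB.symm ((hr.trans hq).trans h1))).trans le_sup_left)
      (fun r hr h3 => (eqB.trans h3 (eqB.symm ((hr.trans hq).trans h2))).trans le_sup_right)

theorem opair_congr {p : B} {x x' y y' : BName B} (h1 : p ≤ eqB x x') (h2 : p ≤ eqB y y') :
    p ≤ eqB (opair x y) (opair x' y') :=
  upair_congr (upair_congr h1 h1) (upair_congr h1 h2)

theorem isOPairB_eq (z x y : BName B) : isOPairB z x y = eqB z (opair x y) := by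
  apply le_antisymm
  · refine iSup_le fun a => iSup_le fun b => ?_
    simp only [isUPairB_eq]
    have h1 : eqB a (upair x x) ⊓ eqB b (upair x y) ⊓ eqB z (upair a b) ≤ eqB z (upair a b) :=
      inf_le_right
    refine eqB.trans h1 (upair_congr ?_ ?_)
    · exact inf_le_left.trans inf_le_left
    · exact inf_le_left.trans inf_le_right
  · refine iSup_intro (upair x x) (iSup_intro (upair x y) ?_)
    simp only [isUPairB_eq]
    refine le_inf (le_inf (le_eqB_refl _ _) (le_eqB_refl _ _)) le_rfl

theorem relB_eq (f x y : BName B) : relB f x y = memB (opair x y) f := by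
  simp only [relB, isOPairB_eq]
  exact iSup_eqB (ext_memB_left f)

theorem upair_singleton_inj {p : B} {x a b : BName B} (h : p ≤ eqB (upair x x) (upair a b)) :
    p ≤ eqB x a ∧ p ≤ eqB x b := by
  constructor
  · have h1 : p ≤ memB a (upair a b) := by
      rw [memB_upair]; exact (le_eqB_refl _ _).trans le_sup_left
    have h2 := memB_congr_right (eqB.symm h) h1
    rw [memB_upair, sup_idem] at h2
    exact eqB.symm h2
  · have h1 : p ≤ memB b (upair a b) := by
      rw [memB_upair]; exact (le_eqB_refl _ _).trans le_sup_right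
    have h2 := memB_congr_right (eqB.symm h) h1
    rw [memB_upair, sup_idem] at h2
    exact eqB.symm h2

theorem opair_inj_left {p : B} {x x' y y' : BName B} (h : p ≤ eqB (opair x y) (opair x' y')) :
    p ≤ eqB x x' := by
  have h1 : p ≤ memB (upair x x) (opair x y) := by
    rw [opair, memB_upair]; exact (le_eqB_refl _ _).trans le_sup_left
  have h2 := memB_congr_right h h1
  rw [opair, memB_upair] at h2
  exact sup_elim h2 (fun q _ h3 => (upair_singleton_inj h3).1)
    (fun q _ h3 => (upair_singleton_inj h3).1)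

theorem opair_inj_right {p : B} {x x' y y' : BName B} (h : p ≤ eqB (opair x y) (opair x' y')) :
    p ≤ eqB y y' := by
  have hx : p ≤ eqB x x' := opair_inj_left h
  -- `{x', y'} ∈ (x, y)`
  have h1 : p ≤ memB (upair x' y') (opair x y) := by
    refine memB_congr_right (eqB.symm h) ?_
    rw [opair, memB_upair]; exact (le_eqB_refl _ _).trans le_sup_right
  rw [opair, memB_upair] at h1
  refine sup_elim h1 (fun q hq h3 => ?_) (fun q hq h3 => ?_)
  · -- `{x', y'} = {x, x}`: then `y' = x`, and `{x, y} ∈ (x', y')` gives `y = x'` or `y = y'`.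
    have h4 : q ≤ eqB x y' := (upair_singleton_inj (eqB.symm h3)).2
    have h5 : q ≤ memB (upair x y) (opair x' y') := by
      refine memB_congr_right (hq.trans h) ?_
      rw [opair, memB_upair]; exact (le_eqB_refl _ _).trans le_sup_right
    rw [opair, memB_upair] at h5
    refine sup_elim h5 (fun r hr h6 => ?_) (fun r hr h6 => ?_)
    · have h7 : r ≤ eqB x' y := (upair_singleton_inj (eqB.symm h6)).2
      exact eqB.trans (eqB.symm h7) (eqB.trans (eqB.symm ((hr.trans hq).trans hx)) (hr.trans h4))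
    · have h7 : r ≤ memB y (upair x' y') := by
        refine memB_congr_right h6 ?_
        rw [memB_upair]; exact (le_eqB_refl _ _).trans le_sup_right
      rw [memB_upair] at h7
      refine sup_elim h7 (fun s hs h8 => ?_) (fun s hs h8 => h8)
      exact eqB.trans h8 (eqB.trans (eqB.symm (((hs.trans hr).trans hq).trans hx))
        ((hs.trans hr).trans h4))
  · -- `{x', y'} = {x, y}`
    have h4 : q ≤ memB y (upair x' y') := by
      refine memB_congr_right (eqB.symm h3) ?_
      rw [memB_upair]; exact (le_eqB_refl _ _).trans le_sup_right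
    have h5 : q ≤ memB y' (upair x y) := by
      refine memB_congr_right h3 ?_
      rw [memB_upair]; exact (le_eqB_refl _ _).trans le_sup_right
    rw [memB_upair] at h4 h5
    refine sup_elim h4 (fun r hr h6 => ?_) (fun r hr h6 => h6)
    refine sup_elim (hr.trans h5) (fun s hs h7 => ?_) (fun s hs h7 => eqB.symm h7)
    -- y = x', y' = x, x = x'
    exact eqB.trans (hs.trans h6) (eqB.trans (eqB.symm (((hs.trans hr).trans hq).trans hx))
      (eqB.symm h7))

theorem eqB_opair (x x' y y' : BName B) :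
    eqB (opair x y) (opair x' y') = eqB x x' ⊓ eqB y y' :=
  le_antisymm (le_inf (opair_inj_left le_rfl) (opair_inj_right le_rfl))
    (opair_congr inf_le_left inf_le_right)

end Pool.Agent.MPa4e7db
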