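import Mathlib
import Pool.Agent.Lib.MP_a4e7db_lc.Basic

/-!
Names for the natural numbers, for omega and for subsets of omega.
-/

namespace Pool.Agent.MPa4e7db

universe u

variable {B : Type u} [CompleteBooleanAlgebra B]

/-- Name of the empty set. -/
def emptyN : BName B := BName.mk PEmpty.{u + 1} (fun i => i.elim) (fun i => i.elim)

theorem memB_emptyN (t : BName B) : memB t emptyN = ⊥ := by
  rw [emptyN, memB_mk]
  exact iSup_of_empty _

theorem isEmptyB_eq (e : BName B) : isEmptyB e = eqB e emptyN := by
  rw [← eqB_of_iff (N := emptyN) (φ := fun _ => ⊥) (fun t => memB_emptyN t)]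
  simp only [isEmptyB, iffB, himp_bot, bot_himp, inf_top_eq]

/-- Name of `x ∪ {x}`. -/
def succN : BName B → BName B
  | BName.mk ι x a => BName.mk (Option ι)
      (fun o => match o with | none => BName.mk ι x a | some i => x i)
      (fun o => match o with | none => ⊤ | some i => a i)

theorem memB_succN (t x : BName B) : memB t (succN x) = memB t x ⊔ eqB t x := by
  cases x with
  | mk ι x a =>
    rw [succN, memB_mk, memB_mk, iSup_option, sup_comm]
    simp

theorem isSuccB_eq (s n : BName B) : isSuccB s n = eqB s (succN n) :=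
  eqB_of_iff (fun t => memB_succN t n)

/-- Name of the natural number `n`. -/
def natN : ℕ → BName B
  | 0 => emptyN
  | n + 1 => succN (natN n)

theorem memB_natN (t : BName B) (n : ℕ) :
    memB t (natN n) = ⨆ i : Fin n, eqB t (natN (i : ℕ)) := by
  induction n with
  | zero =>
    rw [natN, memB_emptyN, iSup_of_empty]
  | succ n ih =>
    rw [natN, memB_succN, ih]
    apply le_antisymm
    · refine sup_le (iSup_le fun i => ?_) ?_
      · exact le_iSup_of_le (Fin.castSucc i) le_rfl
      · exact le_iSup_of_le (Fin.last n) le_rfl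
    · refine iSup_le fun i => ?_
      rcases Fin.eq_castSucc_or_eq_last i with ⟨j, rfl⟩ | rfl
      · exact le_sup_of_le_left (le_iSup_of_le j le_rfl)
      · exact le_sup_right

theorem memB_natN_lt {i n : ℕ} (h : i < n) : memB (natN i : BName B) (natN n) = ⊤ := by
  rw [memB_natN, eq_top_iff]
  exact iSup_intro ⟨i, h⟩ (le_eqB_refl _ _)

theorem memB_natN_self (n : ℕ) : memB (natN n : BName B) (natN n) = ⊥ := by
  induction n using Nat.strong_induction_on with
  | _ n ih =>
    rw [eq_bot_iff]
    conv_lhs => rw [memB_natN]
    refine iSup_le fun i => ?_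
    have h1 : eqB (natN n : BName B) (natN (i : ℕ)) ≤ memB (natN (i : ℕ)) (natN n) := by
      rw [memB_natN_lt i.2]; exact le_top
    have h2 := memB_congr_right (le_refl (eqB (natN n : BName B) (natN (i : ℕ)))) h1
    rwa [ih i i.2] at h2

theorem eqB_natN_ne {i j : ℕ} (h : i ≠ j) : eqB (natN i : BName B) (natN j) = ⊥ := by
  rcases lt_or_gt_of_ne h with h | h
  · rw [eq_bot_iff]
    have h1 : eqB (natN i : BName B) (natN j) ≤ memB (natN i) (natN j) := by
      rw [memB_natN_lt h]; exact le_top
    have h2 := memB_congr_right (eqB.symm (le_refl (eqB (natN i : BName B) (natN j)))) h1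
    rwa [memB_natN_self] at h2
  · rw [eq_bot_iff]
    have h1 : eqB (natN i : BName B) (natN j) ≤ memB (natN j) (natN i) := by
      rw [memB_natN_lt h]; exact le_top
    have h2 := memB_congr_right (le_refl (eqB (natN i : BName B) (natN j))) h1
    rwa [memB_natN_self] at h2

/-- Name of omega. -/
def omegaN : BName B := BName.mk (ULift.{u} ℕ) (fun n => natN n.down) (fun _ => ⊤)

theorem memB_omegaN (t : BName B) : memB t omegaN = ⨆ n : ℕ, eqB t (natN n) := by
  rw [omegaN, memB_mk]
  apply le_antisymm
  · refine iSup_le fun n => ?_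
    exact le_iSup_of_le n.down inf_le_right
  · refine iSup_le fun n => ?_
    exact iSup_intro ⟨n⟩ (le_inf le_top le_rfl)

theorem natN_mem_omegaN (n : ℕ) : memB (natN n : BName B) omegaN = ⊤ := by
  rw [memB_omegaN, eq_top_iff]
  exact iSup_intro n (le_eqB_refl _ _)

theorem succN_congr {p : B} {x y : BName B} (h : p ≤ eqB x y) : p ≤ eqB (succN x) (succN y) := by
  apply eqB_ext
  · intro z q hq hz
    rw [memB_succN] at hz ⊢
    exact sup_elim hz (fun r hr h3 => (memB_congr_right ((hr.trans hq).trans h) h3).trans
      le_sup_left) (fun r hr h3 => (eqB.trans h3 ((hr.trans hq).trans h)).trans le_sup_right)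
  · intro z q hq hz
    rw [memB_succN] at hz ⊢
    exact sup_elim hz (fun r hr h3 => (memB_congr_right (eqB.symm ((hr.trans hq).trans h)) h3).trans
      le_sup_left) (fun r hr h3 => (eqB.trans h3 (eqB.symm ((hr.trans hq).trans h))).trans
      le_sup_right)

theorem isInductiveB_omegaN : isInductiveB (omegaN : BName B) = ⊤ := by
  rw [eq_top_iff, isInductiveB]
  refine le_inf ?_ ?_
  · refine iSup_intro (natN 0) (le_inf ?_ ?_)
    · rw [isEmptyB_eq]; exact le_eqB_refl _ _
    · rw [natN_mem_omegaN]
  · refine le_iInf fun n => himp_intro fun q _ hqn => ?_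
    rw [memB_omegaN] at hqn
    refine iSup_elim hqn fun i r _ hri => ?_
    refine iSup_intro (natN (i + 1)) (le_inf ?_ ?_)
    · rw [isSuccB_eq]
      exact eqB.symm (succN_congr hri)
    · rw [natN_mem_omegaN]; exact le_top

theorem natN_mem_of_inductive {p : B} {v : BName B} (h : p ≤ isInductiveB v) (n : ℕ) :
    p ≤ memB (natN n) v := by
  have h1 := h.trans inf_le_left
  have h2 := h.trans inf_le_right
  induction n with
  | zero =>
    refine iSup_elim h1 fun e q _ hqe => ?_
    rw [isEmptyB_eq] at hqe
    exact memB_congr_left (hqe.trans inf_le_left) (hqe.trans inf_le_right)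
  | succ n ih =>
    have h3 := himp_mp (iInf_mp h2 (natN n)) ih
    refine iSup_elim h3 fun s q _ hqs => ?_
    rw [isSuccB_eq] at hqs
    exact memB_congr_left (hqs.trans inf_le_left) (hqs.trans inf_le_right)

theorem isOmegaB_eq (w : BName B) : isOmegaB w = eqB w omegaN := by
  apply le_antisymm
  · apply eqB_ext
    · intro z q hq hz
      have h1 := hq.trans inf_le_right
      have h2 := himp_mp (iInf_mp h1 omegaN) (by rw [isInductiveB_omegaN]; exact le_top)
      exact himp_mp (iInf_mp h2 z) hz
    · intro z q hq hz
      rw [memB_omegaN] at hz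
      refine iSup_elim hz fun i r hr hri => ?_
      exact memB_congr_left (eqB.symm hri)
        (natN_mem_of_inductive ((hr.trans hq).trans inf_le_left) i)
  · rw [isOmegaB]
    refine le_inf ?_ ?_
    · -- inductive
      rw [isInductiveB]
      refine le_inf ?_ ?_
      · refine iSup_intro (natN 0) (le_inf ?_ ?_)
        · rw [isEmptyB_eq]; exact le_eqB_refl _ _
        · refine memB_congr_right (eqB.symm le_rfl) ?_
          rw [natN_mem_omegaN]; exact le_top
      · refine le_iInf fun n => himp_intro fun q hq hqn => ?_
        have hqn' := memB_congr_right hq hqn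
        rw [memB_omegaN] at hqn'
        refine iSup_elim hqn' fun i r hr hri => ?_
        refine iSup_intro (natN (i + 1)) (le_inf ?_ ?_)
        · rw [isSuccB_eq]
          exact eqB.symm (succN_congr hri)
        · refine memB_congr_right (eqB.symm (hr.trans hq)) ?_
          rw [natN_mem_omegaN]; exact le_top
    · refine le_iInf fun v => himp_intro fun q hq hqv => ?_
      rw [subB]
      refine le_iInf fun z => himp_intro fun r hr hrz => ?_
      have hrz' := memB_congr_right (hr.trans hq) hrz
      rw [memB_omegaN] at hrz'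
      refine iSup_elim hrz' fun i s hs hsi => ?_
      exact memB_congr_left (eqB.symm hsi)
        (natN_mem_of_inductive ((hs.trans hr).trans hqv) i)

/-- Name of the subset of omega with Boolean values `x`. -/
def setN (x : ℕ → B) : BName B :=
  BName.mk (ULift.{u} ℕ) (fun n => natN n.down) (fun n => x n.down)

theorem memB_setN (t : BName B) (x : ℕ → B) : memB t (setN x) = ⨆ m : ℕ, x m ⊓ eqB t (natN m) := by
  rw [setN, memB_mk]
  apply le_antisymm
  · refine iSup_le fun n => ?_
    exact le_iSup_of_le n.down le_rfl
  · refine iSup_le fun n => ?_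
    exact iSup_intro ⟨n⟩ le_rfl

theorem memB_natN_setN (m : ℕ) (x : ℕ → B) : memB (natN m) (setN x) = x m := by
  rw [memB_setN]
  apply le_antisymm
  · refine iSup_le fun n => ?_
    by_cases h : m = n
    · subst h; exact inf_le_left
    · rw [eqB_natN_ne h, inf_bot_eq]; exact bot_le
  · exact iSup_intro m (le_inf le_rfl (le_eqB_refl _ _))

theorem eqB_setN_of_sub {p : B} {X : BName B} (h : p ≤ subB X omegaN) :
    p ≤ eqB X (setN fun m => memB (natN m) X) := by
  apply eqB_ext
  · intro z q hq hz
    have h1 := himp_mp (iInf_mp (hq.trans h) z) hz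
    rw [memB_omegaN] at h1
    refine iSup_elim h1 fun i r hr hri => ?_
    rw [memB_setN]
    exact iSup_intro i (le_inf (memB_congr_left hri (hr.trans hz)) hri)
  · intro z q _ hz
    rw [memB_setN] at hz
    refine iSup_elim hz fun i r _ hri => ?_
    exact memB_congr_left (eqB.symm (hri.trans inf_le_right)) (hri.trans inf_le_left)

theorem subB_setN_omegaN (p : B) (x : ℕ → B) : p ≤ subB (setN x) omegaN := by
  refine le_iInf fun z => himp_intro fun q _ hz => ?_
  rw [memB_setN] at hz
  refine iSup_elim hz fun i r _ hri => ?_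
  rw [memB_omegaN]
  exact iSup_intro i (hri.trans inf_le_right)

theorem isInterB_setN (p : B) (x y : ℕ → B) :
    p ≤ isInterB (setN fun m => x m ⊓ y m) (setN x) (setN y) := by
  refine le_iInf fun t => iffB_intro (fun q _ hq => ?_) (fun q _ hq => ?_)
  · rw [memB_setN] at hq
    refine iSup_elim hq fun i r _ hri => ?_
    rw [memB_setN, memB_setN]
    refine le_inf (iSup_intro i (le_inf ?_ (hri.trans inf_le_right)))
      (iSup_intro i (le_inf ?_ (hri.trans inf_le_right)))
    · exact hri.trans (inf_le_left.trans inf_le_left)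
    · exact hri.trans (inf_le_left.trans inf_le_right)
  · have h1 := hq.trans inf_le_left
    have h2 := hq.trans inf_le_right
    rw [memB_setN] at h1
    refine iSup_elim h1 fun i r hr hri => ?_
    have h3 : r ≤ memB (natN i) (setN y) :=
      memB_congr_left (hri.trans inf_le_right) (hr.trans h2)
    rw [memB_natN_setN] at h3
    rw [memB_setN]
    exact iSup_intro i (le_inf (le_inf (hri.trans inf_le_left) h3) (hri.trans inf_le_right))

theorem isDiffB_setN (p : B) (x : ℕ → B) :
    p ≤ isDiffB (setN fun m => (x m)ᶜ) omegaN (setN x) := by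
  refine le_iInf fun t => iffB_intro (fun q _ hq => ?_) (fun q _ hq => ?_)
  · rw [memB_setN] at hq
    refine iSup_elim hq fun i r _ hri => ?_
    refine le_inf ?_ ?_
    · rw [memB_omegaN]; exact iSup_intro i (hri.trans inf_le_right)
    · refine compl_intro fun s hs hst => ?_
      have h3 : s ≤ memB (natN i) (setN x) :=
        memB_congr_left ((hs.trans hri).trans inf_le_right) hst
      rw [memB_natN_setN] at h3
      exact eq_bot_iff.mpr (compl_mp ((hs.trans hri).trans inf_le_left) h3)
  · have h1 := hq.trans inf_le_left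
    have h2 := hq.trans inf_le_right
    rw [memB_omegaN] at h1
    refine iSup_elim h1 fun i r hr hri => ?_
    rw [memB_setN]
    refine iSup_intro i (le_inf ?_ hri)
    refine compl_intro fun s hs hsx => ?_
    have h3 : s ≤ memB t (setN x) := by
      rw [memB_setN]
      exact iSup_intro i (le_inf hsx (hs.trans hri))
    exact eq_bot_iff.mpr (compl_mp ((hs.trans hr).trans h2) h3)

end Pool.Agent.MPa4e7db
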