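import Mathlib

/-!
The probabilistic core: a random set all of whose elements take few colours in a colouring which is
independent of a sub-sigma-algebra has conditional membership probabilities tending to zero.
-/

namespace Pool.Agent.MPa4e7db

open MeasureTheory

/-- Number of indices `< N` for which `ω ∈ P m`. -/
noncomputable def cnt {Ω : Type*} (P : ℕ → Set Ω) (N : ℕ) (ω : Ω) : ℕ :=
  ∑ m ∈ Finset.range N, (P m).indicator (fun _ => 1) ω

theorem cnt_succ {Ω : Type*} (P : ℕ → Set Ω) (N : ℕ) (ω : Ω) :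
    cnt P (N + 1) ω = cnt P N ω + (P N).indicator (fun _ => 1) ω := by
  rw [cnt, Finset.sum_range_succ, cnt]

/-- The first `K` indices. -/
def firstK {Ω : Type*} (P : ℕ → Set Ω) (K m : ℕ) : Set Ω := {ω | ω ∈ P m ∧ cnt P m ω < K}

theorem cnt_firstK {Ω : Type*} (P : ℕ → Set Ω) (K N : ℕ) (ω : Ω) :
    cnt (firstK P K) N ω = min K (cnt P N ω) := by
  classical
  induction N with
  | zero => simp [cnt]
  | succ N ih =>
    rw [cnt_succ, cnt_succ, ih]
    by_cases h1 : ω ∈ P N
    · by_cases h2 : cnt P N ω < K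
      · have h3 : ω ∈ firstK P K N := ⟨h1, h2⟩
        rw [Set.indicator_of_mem h1, Set.indicator_of_mem h3]
        omega
      · have h3 : ω ∉ firstK P K N := fun h => h2 h.2
        rw [Set.indicator_of_mem h1, Set.indicator_of_notMem h3]
        omega
    · have h3 : ω ∉ firstK P K N := fun h => h1 h.1
      rw [Set.indicator_of_notMem h1, Set.indicator_of_notMem h3]
      omega

theorem measurable_cnt {Ω : Type*} {F : MeasurableSpace Ω} {P : ℕ → Set Ω}
    (hP : ∀ m, MeasurableSet[F] (P m)) (N : ℕ) : Measurable[F] (cnt P N) := by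
  unfold cnt
  exact Finset.measurable_sum _ fun m _ => measurable_const.indicator (hP m)

theorem cnt_eq_card {Ω : Type*} (P : ℕ → Set Ω) (N : ℕ) (ω : Ω) [DecidablePred (fun m => ω ∈ P m)] :
    cnt P N ω = ((Finset.range N).filter (fun m => ω ∈ P m)).card := by
  classical
  rw [cnt, Finset.card_filter]
  apply Finset.sum_congr rfl
  intro m _
  by_cases h : ω ∈ P m
  · rw [Set.indicator_of_mem h, if_pos h]
  · rw [Set.indicator_of_notMem h, if_neg h]

theorem exists_K_n (ε : ℝ) (hε : 0 < ε) :
    ∃ K n : ℕ, (n : ℝ) + 1 + (K : ℝ) ^ 3 * (1 / 2) ^ n < ε * K := by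
  have h1 := tendsto_pow_const_div_const_pow_of_one_lt 3 (r := (2 : ℝ)) (by norm_num)
  let M : ℝ := (1 / ε + 1) ^ 3
  have hM : 0 < M := by positivity
  have h2 : ∀ᶠ n : ℕ in Filter.atTop, (n : ℝ) ^ 3 / 2 ^ n < 1 / (27 * M) :=
    h1.eventually (gt_mem_nhds (by positivity))
  obtain ⟨n, hn, hn1⟩ := (h2.and (Filter.eventually_ge_atTop 1)).exists
  refine ⟨⌈((n : ℝ) + 2) / ε⌉₊, n, ?_⟩
  set K : ℕ := ⌈((n : ℝ) + 2) / ε⌉₊ with hK
  have hn1' : (1 : ℝ) ≤ n := by exact_mod_cast hn1
  have hK1 : ((n : ℝ) + 2) / ε ≤ K := Nat.le_ceil _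
  have hK2 : (K : ℝ) < ((n : ℝ) + 2) / ε + 1 := Nat.ceil_lt_add_one (by positivity)
  have hK3 : (n : ℝ) + 2 ≤ ε * K := by
    rw [div_le_iff₀ hε] at hK1; linarith
  have hK4 : (K : ℝ) ≤ 3 * n * (1 / ε + 1) := by
    have : ((n : ℝ) + 2) / ε + 1 ≤ ((n : ℝ) + 2) * (1 / ε + 1) := by
      have : ((n : ℝ) + 2) / ε = ((n : ℝ) + 2) * (1 / ε) := by ring
      rw [this]; nlinarith [hn1']
    have h3 : ((n : ℝ) + 2) * (1 / ε + 1) ≤ 3 * n * (1 / ε + 1) := by
      apply mul_le_mul_of_nonneg_right _ (by positivity)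
      linarith
    linarith
  have hK5 : (K : ℝ) ^ 3 ≤ 27 * n ^ 3 * M := by
    calc (K : ℝ) ^ 3 ≤ (3 * n * (1 / ε + 1)) ^ 3 := pow_le_pow_left₀ (by positivity) hK4 3
      _ = 27 * n ^ 3 * M := by simp only [M]; ring
  have hK6 : (K : ℝ) ^ 3 * (1 / 2) ^ n < 1 := by
    have h5 : (n : ℝ) ^ 3 * (1 / 2) ^ n < 1 / (27 * M) := by
      rw [one_div_pow, mul_one_div]; exact hn
    have h6 : 27 * M * ((n : ℝ) ^ 3 * (1 / 2) ^ n) < 1 := by
      rw [lt_div_iff₀ (by positivity)] at h5
      linarith
    calc (K : ℝ) ^ 3 * (1 / 2) ^ n ≤ (27 * n ^ 3 * M) * (1 / 2) ^ n :=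
          mul_le_mul_of_nonneg_right hK5 (by positivity)
      _ = 27 * M * ((n : ℝ) ^ 3 * (1 / 2) ^ n) := by ring
      _ < 1 := h6
  linarith

theorem integral_sum_indicator {Ω : Type*} {m0 : MeasurableSpace Ω} {μ : Measure Ω}
    [IsProbabilityMeasure μ] {ι : Type*} (s : Finset ι) {A : ι → Set Ω}
    (hA : ∀ i, MeasurableSet (A i)) :
    ∫ ω, ∑ i ∈ s, (A i).indicator (fun _ => (1 : ℝ)) ω ∂μ = ∑ i ∈ s, μ.real (A i) := by
  rw [integral_finsetSum]
  · apply Finset.sum_congr rfl
    intro i _
    rw [integral_indicator (hA i), setIntegral_const, smul_eq_mul, mul_one]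
  · intro i _
    exact (integrable_const _).indicator (hA i)

theorem few_colours {Ω : Type*} {F m0 : MeasurableSpace Ω} {μ : Measure Ω}
    [IsProbabilityMeasure μ] (hF : F ≤ m0) {X : ℕ → Set Ω} (hX : ∀ m, MeasurableSet (X m))
    {D : ℕ → ℕ → ℕ → Set Ω} (hD : ∀ n m m', MeasurableSet (D n m m'))
    (hind : ∀ n m m', m ≠ m' → ∀ S, MeasurableSet[F] S →
      μ.real (S ∩ D n m m') = (1 / 2) ^ n * μ.real S)
    (hcol : ∀ n, ∀ᵐ ω ∂μ, ∀ A : Finset ℕ, n + 2 ≤ A.card → (∀ m ∈ A, ω ∈ X m) →
      ∃ m ∈ A, ∃ m' ∈ A, m < m' ∧ ω ∈ D n m m')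
    (ε : ℝ) (hε : 0 < ε) :
    ∃ K : ℕ, ∀ N : ℕ, μ {ω | K ≤ cnt (fun m => {ω | ε ≤
      (μ[(X m).indicator (fun _ => (1 : ℝ)) | F]) ω}) N ω} = 0 := by
  classical
  obtain ⟨K, n, hKn⟩ := exists_K_n ε hε
  refine ⟨K, fun N => ?_⟩
  set a : ℕ → Ω → ℝ := fun m => μ[(X m).indicator (fun _ => (1 : ℝ)) | F] with ha
  set P : ℕ → Set Ω := fun m => {ω | ε ≤ a m ω} with hPdef
  have hP : ∀ m, MeasurableSet[F] (P m) := by
    intro m
    have h1 : Measurable[F] (a m) := stronglyMeasurable_condExp.measurable
    exact measurableSet_le measurable_const h1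
  change μ {ω | K ≤ cnt P N ω} = 0
  set E : Set Ω := {ω | K ≤ cnt P N ω} with hE
  have hEm : MeasurableSet[F] E := measurableSet_le measurable_const (measurable_cnt hP N)
  let T : ℕ → Set Ω := fun m => firstK P K m ∩ E
  have hfm : ∀ m, MeasurableSet[F] (firstK P K m) := by
    intro m
    have h2 : MeasurableSet[F] {ω | cnt P m ω < K} :=
      measurableSet_lt (measurable_cnt hP m) measurable_const
    exact (hP m).inter h2
  have hT : ∀ m, MeasurableSet[F] (T m) := fun m => (hfm m).inter hEm
  have hT0 : ∀ m, MeasurableSet (T m) := fun m => hF _ (hT m)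
  have hE0 : MeasurableSet E := hF _ hEm
  -- the sum of the indicators of `T m`
  have hsum : ∀ ω, (∑ m ∈ Finset.range N, (T m).indicator (fun _ => (1 : ℝ)) ω) =
      E.indicator (fun _ => (K : ℝ)) ω := by
    intro ω
    by_cases hω : ω ∈ E
    · have h1 : ∀ m, (T m).indicator (fun _ => (1 : ℝ)) ω =
          (((firstK P K m).indicator (fun _ => (1 : ℕ)) ω : ℕ) : ℝ) := by
        intro m
        by_cases h2 : ω ∈ firstK P K m
        · have h3 : ω ∈ T m := ⟨h2, hω⟩
          rw [Set.indicator_of_mem h2, Set.indicator_of_mem h3]; simp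
        · have h3 : ω ∉ T m := fun h => h2 h.1
          rw [Set.indicator_of_notMem h2, Set.indicator_of_notMem h3]; simp
      simp only [h1]
      rw [← Nat.cast_sum, Set.indicator_of_mem hω]
      have h4 := cnt_firstK P K N ω
      rw [cnt] at h4
      rw [h4, min_eq_left hω]
    · rw [Set.indicator_of_notMem hω]
      apply Finset.sum_eq_zero
      intro m _
      exact Set.indicator_of_notMem (fun h => hω h.2) _
  -- (1) lower bound
  have hL1 : ε * K * μ.real E ≤ ∑ m ∈ Finset.range N, μ.real (T m ∩ X m) := by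
    have h1 : ∀ m, ε * μ.real (T m) ≤ μ.real (T m ∩ X m) := by
      intro m
      have hint : Integrable ((X m).indicator (fun _ => (1 : ℝ))) μ :=
        (integrable_const _).indicator (hX m)
      have h2 : ∫ ω in T m, a m ω ∂μ = μ.real (T m ∩ X m) := by
        rw [ha]
        simp only
        rw [setIntegral_condExp hF hint (hT m), setIntegral_indicator (hX m), setIntegral_const,
          smul_eq_mul, mul_one]
      rw [← h2]
      have h3 : ∫ _ in T m, ε ∂μ ≤ ∫ ω in T m, a m ω ∂μ := by
        apply setIntegral_mono_on (integrable_const _).integrableOn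
          integrable_condExp.integrableOn (hT0 m)
        intro ω hω
        exact hω.1.1
      rw [setIntegral_const, smul_eq_mul] at h3
      linarith
    have h4 : ∑ m ∈ Finset.range N, μ.real (T m) = K * μ.real E := by
      rw [← integral_sum_indicator _ hT0]
      simp only [hsum]
      rw [integral_indicator hE0, setIntegral_const, smul_eq_mul]
      ring
    calc ε * K * μ.real E = ∑ m ∈ Finset.range N, ε * μ.real (T m) := by
          rw [← Finset.mul_sum, h4]; ring
      _ ≤ _ := Finset.sum_le_sum fun m _ => h1 m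
  -- (2) upper bound
  let R : ℕ × ℕ → Set Ω := fun mm => if mm.1 < mm.2 then T mm.1 ∩ T mm.2 ∩ D n mm.1 mm.2 else ∅
  have hR : ∀ mm, MeasurableSet (R mm) := by
    intro mm
    simp only [R]
    split_ifs
    · exact ((hT0 _).inter (hT0 _)).inter (hD _ _ _)
    · exact MeasurableSet.empty
  have hL2 : ∑ m ∈ Finset.range N, μ.real (T m ∩ X m) ≤ (n + 1) * μ.real E +
      K * ∑ mm ∈ Finset.range N ×ˢ Finset.range N, μ.real (R mm) := by
    have e1 : ∑ m ∈ Finset.range N, μ.real (T m ∩ X m) =
        ∫ ω, ∑ m ∈ Finset.range N, (T m ∩ X m).indicator (fun _ => (1 : ℝ)) ω ∂μ :=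
      (integral_sum_indicator _ fun m => (hT0 m).inter (hX m)).symm
    have e2 : (n + 1) * μ.real E + K * ∑ mm ∈ Finset.range N ×ˢ Finset.range N, μ.real (R mm) =
        ∫ ω, (((n : ℝ) + 1) * E.indicator (fun _ => (1 : ℝ)) ω +
          K * ∑ mm ∈ Finset.range N ×ˢ Finset.range N, (R mm).indicator (fun _ => (1 : ℝ)) ω)
          ∂μ := by
      rw [integral_add, integral_const_mul, integral_const_mul, integral_sum_indicator _ hR,
        integral_indicator hE0, setIntegral_const, smul_eq_mul, mul_one]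
      · exact ((integrable_const _).indicator hE0).const_mul _
      · exact (integrable_finsetSum _ fun mm _ =>
          (integrable_const _).indicator (hR mm)).const_mul _
    rw [e1, e2]
    apply integral_mono_ae
    · exact integrable_finsetSum _ fun m _ =>
        (integrable_const _).indicator ((hT0 m).inter (hX m))
    · exact ((((integrable_const _).indicator hE0).const_mul _).add
        ((integrable_finsetSum _ fun mm _ =>
          (integrable_const _).indicator (hR mm)).const_mul _))
    · filter_upwards [hcol n] with ω hω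
      by_cases hωE : ω ∈ E
      · set A : Finset ℕ := (Finset.range N).filter (fun m => ω ∈ T m ∩ X m) with hA
        have hLHS : (∑ m ∈ Finset.range N, (T m ∩ X m).indicator (fun _ => (1 : ℝ)) ω) =
            A.card := by
          rw [hA, Finset.card_filter]
          push_cast
          apply Finset.sum_congr rfl
          intro m _
          by_cases h : ω ∈ T m ∩ X m
          · rw [Set.indicator_of_mem h, if_pos h]
          · rw [Set.indicator_of_notMem h, if_neg h]
        have hLK : (∑ m ∈ Finset.range N, (T m ∩ X m).indicator (fun _ => (1 : ℝ)) ω) ≤ K := by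
          calc (∑ m ∈ Finset.range N, (T m ∩ X m).indicator (fun _ => (1 : ℝ)) ω)
              ≤ ∑ m ∈ Finset.range N, (T m).indicator (fun _ => (1 : ℝ)) ω := by
                apply Finset.sum_le_sum
                intro m _
                apply Set.indicator_le_indicator_of_subset Set.inter_subset_left
                intro _; norm_num
            _ = K := by rw [hsum, Set.indicator_of_mem hωE]
        have hnn : 0 ≤ ∑ mm ∈ Finset.range N ×ˢ Finset.range N,
            (R mm).indicator (fun _ => (1 : ℝ)) ω :=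
          Finset.sum_nonneg fun mm _ => Set.indicator_nonneg (fun _ _ => by norm_num) _
        have hKnn : (0 : ℝ) ≤ K := Nat.cast_nonneg _
        rw [Set.indicator_of_mem hωE]
        by_cases hc : n + 2 ≤ A.card
        · obtain ⟨m, hm, m', hm', hlt, hDm⟩ := hω A hc (fun m hm => by
            rw [hA, Finset.mem_filter] at hm
            exact hm.2.2)
          rw [hA, Finset.mem_filter] at hm hm'
          have hmem : ω ∈ R (m, m') := by
            simp only [R, hlt, if_true]
            exact ⟨⟨hm.2.1, hm'.2.1⟩, hDm⟩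
          have h1 : (1 : ℝ) ≤ ∑ mm ∈ Finset.range N ×ˢ Finset.range N,
              (R mm).indicator (fun _ => (1 : ℝ)) ω := by
            have h2 : (R (m, m')).indicator (fun _ => (1 : ℝ)) ω ≤
                ∑ mm ∈ Finset.range N ×ˢ Finset.range N,
                  (R mm).indicator (fun _ => (1 : ℝ)) ω := by
              apply Finset.single_le_sum
                (f := fun mm => (R mm).indicator (fun _ => (1 : ℝ)) ω)
              · intro mm _
                exact Set.indicator_nonneg (fun _ _ => by norm_num) _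
              · rw [Finset.mem_product]; exact ⟨hm.1, hm'.1⟩
            rwa [Set.indicator_of_mem hmem] at h2
          calc (∑ m ∈ Finset.range N, (T m ∩ X m).indicator (fun _ => (1 : ℝ)) ω) ≤ K := hLK
            _ ≤ K * ∑ mm ∈ Finset.range N ×ˢ Finset.range N,
                  (R mm).indicator (fun _ => (1 : ℝ)) ω := by nlinarith
            _ ≤ _ := by
              have : (0 : ℝ) ≤ ((n : ℝ) + 1) * 1 := by positivity
              linarith
        · have h1 : A.card ≤ n + 1 := by omega
          have h2 : (A.card : ℝ) ≤ (n : ℝ) + 1 := by exact_mod_cast h1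
          rw [hLHS]
          have h3 : 0 ≤ (K : ℝ) * ∑ mm ∈ Finset.range N ×ˢ Finset.range N,
              (R mm).indicator (fun _ => (1 : ℝ)) ω := mul_nonneg hKnn hnn
          linarith
      · have h1 : (∑ m ∈ Finset.range N, (T m ∩ X m).indicator (fun _ => (1 : ℝ)) ω) = 0 := by
          apply Finset.sum_eq_zero
          intro m _
          exact Set.indicator_of_notMem (fun h => hωE h.1.2) _
        rw [h1, Set.indicator_of_notMem hωE]
        have hnn : 0 ≤ ∑ mm ∈ Finset.range N ×ˢ Finset.range N,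
            (R mm).indicator (fun _ => (1 : ℝ)) ω :=
          Finset.sum_nonneg fun mm _ => Set.indicator_nonneg (fun _ _ => by norm_num) _
        have hKnn : (0 : ℝ) ≤ K := Nat.cast_nonneg _
        have := mul_nonneg hKnn hnn
        linarith
  -- (3) independence
  have hL3 : ∀ mm, μ.real (R mm) ≤ (1 / 2) ^ n * μ.real (T mm.1 ∩ T mm.2) := by
    intro mm
    simp only [R]
    split_ifs with h
    · rw [hind n mm.1 mm.2 h.ne _ ((hT _).inter (hT _))]
    · simp only [measureReal_empty]
      positivity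
  -- (4) pair count
  have hL4 : ∑ mm ∈ Finset.range N ×ˢ Finset.range N, μ.real (T mm.1 ∩ T mm.2) =
      (K : ℝ) ^ 2 * μ.real E := by
    rw [← integral_sum_indicator _ (A := fun mm : ℕ × ℕ => T mm.1 ∩ T mm.2)
      (fun mm => (hT0 _).inter (hT0 _))]
    have h1 : ∀ ω, (∑ mm ∈ Finset.range N ×ˢ Finset.range N,
        (T mm.1 ∩ T mm.2).indicator (fun _ => (1 : ℝ)) ω) =
        E.indicator (fun _ => (K : ℝ) ^ 2) ω := by
      intro ω
      have h2 : ∀ mm : ℕ × ℕ, (T mm.1 ∩ T mm.2).indicator (fun _ => (1 : ℝ)) ω =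
          (T mm.1).indicator (fun _ => (1 : ℝ)) ω * (T mm.2).indicator (fun _ => (1 : ℝ)) ω := by
        intro mm
        by_cases h3 : ω ∈ T mm.1 <;> by_cases h4 : ω ∈ T mm.2 <;> simp [h3, h4]
      simp only [h2]
      rw [Finset.sum_product]
      have h5 : (∑ x ∈ Finset.range N, ∑ y ∈ Finset.range N,
          (T x).indicator (fun _ => (1 : ℝ)) ω * (T y).indicator (fun _ => (1 : ℝ)) ω) =
          E.indicator (fun _ => (K : ℝ)) ω * E.indicator (fun _ => (K : ℝ)) ω := by
        rw [← Finset.sum_mul_sum, hsum]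
      refine h5.trans ?_
      by_cases h3 : ω ∈ E
      · rw [Set.indicator_of_mem h3, Set.indicator_of_mem h3]; ring
      · rw [Set.indicator_of_notMem h3, Set.indicator_of_notMem h3]; ring
    simp only [h1]
    rw [integral_indicator hE0, setIntegral_const, smul_eq_mul]
    ring
  have hL5 : ∑ mm ∈ Finset.range N ×ˢ Finset.range N, μ.real (R mm) ≤
      (1 / 2) ^ n * ((K : ℝ) ^ 2 * μ.real E) := by
    rw [← hL4, Finset.mul_sum]
    exact Finset.sum_le_sum fun mm _ => hL3 mm
  have hfin : ε * K * μ.real E ≤ ((n : ℝ) + 1 + (K : ℝ) ^ 3 * (1 / 2) ^ n) * μ.real E := by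
    calc ε * K * μ.real E ≤ _ := hL1
      _ ≤ _ := hL2
      _ ≤ (n + 1) * μ.real E + K * ((1 / 2) ^ n * ((K : ℝ) ^ 2 * μ.real E)) := by
        have : (0 : ℝ) ≤ K := Nat.cast_nonneg _
        have := mul_le_mul_of_nonneg_left hL5 this
        linarith
      _ = _ := by ring
  by_contra hne
  have hpos : 0 < μ.real E := by
    rw [measureReal_def]
    exact ENNReal.toReal_pos hne (measure_ne_top _ _)
  have := le_of_mul_le_mul_right hfin hpos
  linarith

end Pool.Agent.MPa4e7db
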