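import Mathlib
import Pool.Agent.Lib.MP_a4e7db_lc.FewColours

/-!
From conditional probabilities tending to zero to almost disjointness with sparse sets of a
sub-sigma-algebra (Borel-Cantelli).
-/

namespace Pool.Agent.MPa4e7db

open MeasureTheory Filter

theorem cnt_mono {Ω : Type*} (P : ℕ → Set Ω) {N N' : ℕ} (h : N ≤ N') (ω : Ω) :
    cnt P N ω ≤ cnt P N' ω := by
  unfold cnt
  apply Finset.sum_le_sum_of_subset
  exact Finset.range_mono h

theorem finite_of_cnt_lt {Ω : Type*} (P : ℕ → Set Ω) (K : ℕ) (ω : Ω)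
    (h : ∀ N, cnt P N ω < K) : ∃ j, ∀ m, j ≤ m → ω ∉ P m := by
  classical
  by_contra hcon
  push Not at hcon
  have h1 : ∀ k, ∃ N, k ≤ cnt P N ω := by
    intro k
    induction k with
    | zero => exact ⟨0, Nat.zero_le _⟩
    | succ k ih =>
      obtain ⟨N, hN⟩ := ih
      obtain ⟨m, hm, hmP⟩ := hcon N
      refine ⟨m + 1, ?_⟩
      rw [cnt_succ, Set.indicator_of_mem hmP]
      have := cnt_mono P hm ω
      omega
  obtain ⟨N, hN⟩ := h1 K
  exact absurd (h N) (not_lt.mpr hN)

theorem sum_meas_le_cnt {Ω : Type*} {m0 : MeasurableSpace Ω} {μ : Measure Ω}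
    [IsProbabilityMeasure μ] {Y : ℕ → Set Ω} (hY : ∀ m, MeasurableSet (Y m)) {S : Set Ω}
    (hS : MeasurableSet S) (N c : ℕ) (h : ∀ ω ∈ S, cnt Y N ω ≤ c) :
    ∑ m ∈ Finset.range N, μ.real (S ∩ Y m) ≤ c := by
  classical
  rw [← integral_sum_indicator (Finset.range N) (A := fun m => S ∩ Y m) (fun m => hS.inter (hY m))]
  have h1 : ∀ ω, (∑ m ∈ Finset.range N, (S ∩ Y m).indicator (fun _ => (1 : ℝ)) ω) ≤ c := by
    intro ω
    by_cases hω : ω ∈ S
    · have h2 : ∀ m, (S ∩ Y m).indicator (fun _ => (1 : ℝ)) ω =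
          (((Y m).indicator (fun _ => (1 : ℕ)) ω : ℕ) : ℝ) := by
        intro m
        by_cases h3 : ω ∈ Y m
        · rw [Set.indicator_of_mem h3, Set.indicator_of_mem (show ω ∈ S ∩ Y m from ⟨hω, h3⟩)]
          simp
        · rw [Set.indicator_of_notMem h3,
            Set.indicator_of_notMem (show ω ∉ S ∩ Y m from fun h => h3 h.2)]
          simp
      simp only [h2]
      rw [← Nat.cast_sum]
      exact_mod_cast h ω hω
    · rw [Finset.sum_eq_zero]
      · exact Nat.cast_nonneg _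
      · intro m _
        exact Set.indicator_of_notMem (fun h => hω h.1) _
  have h2 : ∫ ω, ∑ m ∈ Finset.range N, (S ∩ Y m).indicator (fun _ => (1 : ℝ)) ω ∂μ ≤
      ∫ _, (c : ℝ) ∂μ := by
    apply integral_mono
    · exact integrable_finsetSum _ fun m _ =>
        (integrable_const _).indicator (hS.inter (hY m))
    · exact integrable_const _
    · exact h1
  simpa using h2

theorem exists_scale {Ω : Type*} {F m0 : MeasurableSpace Ω} {μ : Measure Ω}
    [IsProbabilityMeasure μ] (hF : F ≤ m0) {X : ℕ → Set Ω} (hX : ∀ m, MeasurableSet (X m))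
    (hfew : ∀ ε : ℝ, 0 < ε → ∃ K : ℕ, ∀ N : ℕ, μ {ω | K ≤ cnt (fun m => {ω | ε ≤
      (μ[(X m).indicator (fun _ => (1 : ℝ)) | F]) ω}) N ω} = 0)
    (η : ENNReal) (hη : η ≠ 0) :
    ∃ f : ℕ → ℕ, ∃ T : Set Ω, MeasurableSet[F] T ∧ μ Tᶜ < η ∧
      ∀ Y : ℕ → Set Ω, (∀ m, MeasurableSet[F] (Y m)) →
        ∀ᵐ ω ∂μ, ω ∈ T → (∀ k, cnt Y (f k) ω ≤ k + 1) → ∃ N, ∀ m, N ≤ m → ¬ (ω ∈ X m ∧ ω ∈ Y m) := by
  classical
  set a : ℕ → Ω → ℝ := fun m => μ[(X m).indicator (fun _ => (1 : ℝ)) | F] with ha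
  have ham : ∀ m, Measurable[F] (a m) := fun m => stronglyMeasurable_condExp.measurable
  let t : ℕ → ℝ := fun k => 1 / (((k : ℝ) + 2) * 2 ^ k)
  have ht : ∀ k, 0 < t k := fun k => by positivity
  let P : ℕ → ℕ → Set Ω := fun k m => {ω | t k ≤ a m ω}
  have hP : ∀ k m, MeasurableSet[F] (P k m) := fun k m => measurableSet_le measurable_const (ham m)
  -- bad sets
  let bad : ℕ → ℕ → Set Ω := fun k j => ⋃ m, ⋃ (_ : j ≤ m), P k m
  have hbadF : ∀ k j, MeasurableSet[F] (bad k j) := fun k j =>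
    MeasurableSet.iUnion fun m => MeasurableSet.iUnion fun _ => hP k m
  have hbad0 : ∀ k j, MeasurableSet (bad k j) := fun k j => hF _ (hbadF k j)
  have hanti : ∀ k, Antitone (bad k) := by
    intro k j j' hjj ω hω
    simp only [bad, Set.mem_iUnion] at hω ⊢
    obtain ⟨m, hm, h⟩ := hω
    exact ⟨m, hjj.trans hm, h⟩
  have hnull : ∀ k, μ (⋂ j, bad k j) = 0 := by
    intro k
    obtain ⟨K, hK⟩ := hfew (t k) (ht k)
    have h1 : ∀ᵐ ω ∂μ, ∀ N, cnt (P k) N ω < K := by
      rw [ae_all_iff]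
      intro N
      have := hK N
      rw [← compl_mem_ae_iff] at this
      filter_upwards [this] with ω hω
      exact not_le.mp hω
    rw [← compl_mem_ae_iff]
    filter_upwards [h1] with ω hω hω2
    obtain ⟨j, hj⟩ := finite_of_cnt_lt _ _ _ hω
    have h3 := Set.mem_iInter.mp hω2 j
    simp only [bad, Set.mem_iUnion] at h3
    obtain ⟨m, hm, h⟩ := h3
    exact hj m hm h
  obtain ⟨δ, hδ, hδsum⟩ := ENNReal.exists_pos_sum_of_countable hη ℕ
  have hf0 : ∀ k, ∃ j, μ (bad k j) < δ k := by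
    intro k
    have h1 : Tendsto (fun j => μ (bad k j)) atTop (nhds (μ (⋂ j, bad k j))) :=
      tendsto_measure_iInter_atTop (fun j => (hbad0 k j).nullMeasurableSet) (hanti k)
        ⟨0, measure_ne_top _ _⟩
    rw [hnull] at h1
    have h2 := h1.eventually (gt_mem_nhds (show (0 : ENNReal) < δ k by exact_mod_cast hδ k))
    exact h2.exists
  choose f0 hf0 using hf0
  let f : ℕ → ℕ := fun k => ∑ i ∈ Finset.range (k + 1), (f0 i + 1)
  have hfmono : Monotone f := by
    intro k k' hkk
    apply Finset.sum_le_sum_of_subset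
    apply Finset.range_mono
    omega
  have hf1 : ∀ k, f0 k ≤ f k := by
    intro k
    simp only [f]
    rw [Finset.sum_range_succ]
    omega
  have hf2 : ∀ k, k < f k := by
    intro k
    have : ∑ i ∈ Finset.range (k + 1), 1 ≤ f k := Finset.sum_le_sum fun i _ => by omega
    simp at this
    omega
  let T : Set Ω := ⋂ k, (bad k (f k))ᶜ
  have hTF : MeasurableSet[F] T := MeasurableSet.iInter fun k => (hbadF k _).compl
  refine ⟨f, T, hTF, ?_, ?_⟩
  · have h1 : Tᶜ = ⋃ k, bad k (f k) := by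
      simp only [T, Set.compl_iInter, compl_compl]
    rw [h1]
    refine lt_of_le_of_lt (measure_iUnion_le _) (lt_of_le_of_lt ?_ hδsum)
    apply ENNReal.tsum_le_tsum
    intro k
    exact (measure_mono (hanti k (hf1 k))).trans (hf0 k).le
  · intro Y hY
    have hY0 : ∀ m, MeasurableSet (Y m) := fun m => hF _ (hY m)
    let DY : Set Ω := ⋂ k, {ω | cnt Y (f k) ω ≤ k + 1}
    have hDY : MeasurableSet[F] DY := MeasurableSet.iInter fun k =>
      measurableSet_le (measurable_cnt hY _) measurable_const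
    let S : Set Ω := T ∩ DY
    have hS : MeasurableSet[F] S := hTF.inter hDY
    have hS0 : MeasurableSet S := hF _ hS
    let Bk : ℕ → Set Ω := fun k => ⋃ m ∈ Finset.Ico (f k) (f (k + 1)), (S ∩ Y m ∩ X m)
    have hbound : ∀ k, μ (Bk k) ≤ ENNReal.ofReal ((1 / 2) ^ k) := by
      intro k
      have h1 : μ (Bk k) ≤ ∑ m ∈ Finset.Ico (f k) (f (k + 1)), μ (S ∩ Y m ∩ X m) :=
        measure_biUnion_finset_le _ _
      have h2 : ∀ m ∈ Finset.Ico (f k) (f (k + 1)), μ.real (S ∩ Y m ∩ X m) ≤
          t k * μ.real (S ∩ Y m) := by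
        intro m hm
        have hint : Integrable ((X m).indicator (fun _ => (1 : ℝ))) μ :=
          (integrable_const _).indicator (hX m)
        have h3 : ∫ ω in S ∩ Y m, a m ω ∂μ = μ.real (S ∩ Y m ∩ X m) := by
          rw [ha]
          simp only
          rw [setIntegral_condExp hF hint (hS.inter (hY m)), setIntegral_indicator (hX m),
            setIntegral_const, smul_eq_mul, mul_one]
        rw [← h3]
        have h4 : ∫ ω in S ∩ Y m, a m ω ∂μ ≤ ∫ _ in S ∩ Y m, t k ∂μ := by
          apply setIntegral_mono_on integrable_condExp.integrableOn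
            (integrable_const _).integrableOn (hS0.inter (hY0 m))
          intro ω hω
          have h5 : ω ∉ bad k (f k) := Set.mem_iInter.mp hω.1.1 k
          simp only [bad, Set.mem_iUnion, not_exists] at h5
          have h6 := h5 m (Finset.mem_Ico.mp hm).1
          exact (not_le.mp h6).le
        rw [setIntegral_const, smul_eq_mul] at h4
        linarith
      have h7 : ∑ m ∈ Finset.Ico (f k) (f (k + 1)), μ.real (S ∩ Y m) ≤ (k + 2 : ℕ) := by
        refine le_trans ?_ (sum_meas_le_cnt (μ := μ) hY0 hS0 (f (k + 1)) (k + 2) ?_)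
        · apply Finset.sum_le_sum_of_subset_of_nonneg
          · intro m hm
            rw [Finset.mem_range]
            exact (Finset.mem_Ico.mp hm).2
          · intro _ _ _; exact measureReal_nonneg
        · intro ω hω
          exact Set.mem_iInter.mp hω.2 (k + 1)
      have h8 : ∑ m ∈ Finset.Ico (f k) (f (k + 1)), μ.real (S ∩ Y m ∩ X m) ≤ (1 / 2) ^ k := by
        calc ∑ m ∈ Finset.Ico (f k) (f (k + 1)), μ.real (S ∩ Y m ∩ X m)
            ≤ ∑ m ∈ Finset.Ico (f k) (f (k + 1)), t k * μ.real (S ∩ Y m) :=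
              Finset.sum_le_sum h2
          _ = t k * ∑ m ∈ Finset.Ico (f k) (f (k + 1)), μ.real (S ∩ Y m) := by
              rw [Finset.mul_sum]
          _ ≤ t k * (k + 2 : ℕ) := mul_le_mul_of_nonneg_left h7 (ht k).le
          _ = (1 / 2) ^ k := by
              simp only [t]
              push_cast
              have : ((k : ℝ) + 2) ≠ 0 := by positivity
              rw [one_div_pow]
              field_simp
      refine h1.trans ?_
      have h9 : ∑ m ∈ Finset.Ico (f k) (f (k + 1)), μ (S ∩ Y m ∩ X m) =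
          ENNReal.ofReal (∑ m ∈ Finset.Ico (f k) (f (k + 1)), μ.real (S ∩ Y m ∩ X m)) := by
        rw [ENNReal.ofReal_sum_of_nonneg (fun _ _ => measureReal_nonneg)]
        apply Finset.sum_congr rfl
        intro m _
        rw [measureReal_def, ENNReal.ofReal_toReal (measure_ne_top _ _)]
      rw [h9]
      exact ENNReal.ofReal_le_ofReal h8
    have hsum : ∑' k, μ (Bk k) ≠ ⊤ := by
      refine ne_top_of_le_ne_top ?_ (ENNReal.tsum_le_tsum hbound)
      rw [← ENNReal.ofReal_tsum_of_nonneg (fun k => by positivity) summable_geometric_two]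
      exact ENNReal.ofReal_ne_top
    have hBC := ae_eventually_notMem hsum
    filter_upwards [hBC] with ω hω hωT hωD
    obtain ⟨N, hN⟩ := eventually_atTop.mp hω
    refine ⟨f N, ?_⟩
    rintro m hm ⟨hmX, hmY⟩
    have hex : ∃ j, m < f j := ⟨m, hf2 m⟩
    let j := Nat.find hex
    have hj : m < f j := Nat.find_spec hex
    have hjN : N < j := by
      by_contra h
      have := hfmono (not_lt.mp h)
      omega
    obtain ⟨k, hk⟩ : ∃ k, j = k + 1 := ⟨j - 1, by omega⟩
    have hkm : f k ≤ m := by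
      have : ¬ m < f k := Nat.find_min hex (by
        change k < j
        omega)
      exact not_lt.mp this
    have hkN : N ≤ k := by omega
    apply hN k hkN
    simp only [Bk, Set.mem_iUnion]
    refine ⟨m, ?_, ?_⟩
    · rw [Finset.mem_Ico]
      exact ⟨hkm, hk ▸ hj⟩
    · exact ⟨⟨⟨hωT, Set.mem_iInter.mpr hωD⟩, hmY⟩, hmX⟩

end Pool.Agent.MPa4e7db
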