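import Mathlib
import Pool.Agent.Lib.MP_a4e7db_lc.Scale
import Pool.Agent.Lib.MP_a4e7db_lc.Coin

/-!
The core argument, in terms of the measure algebra of `2^I` with `#I > 2^ℵ₀`.
-/

namespace Pool.Agent.MPa4e7db

open MeasureTheory MeasureAlgebra Cardinal

universe u

section Translate

variable {Ω : Type u} [MeasurableSpace Ω] {μ : Measure Ω} [IsFiniteMeasure μ]

theorem ae_of_le_cls {q : MeasureAlgebra μ} {s : Set Ω} {hs : MeasurableSet s}
    (h : q ≤ cls s hs) : ∀ᵐ ω ∂μ, ω ∈ rep q → ω ∈ s := by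
  rw [← cls_rep q] at h
  exact h

theorem ae_of_le {q a : MeasureAlgebra μ} (h : q ≤ a) : ∀ᵐ ω ∂μ, ω ∈ rep q → ω ∈ rep a := by
  rw [← cls_rep a] at h
  exact ae_of_le_cls h

theorem le_cls_of_ae {q : MeasureAlgebra μ} {s : Set Ω} {hs : MeasurableSet s}
    (h : ∀ᵐ ω ∂μ, ω ∈ rep q → ω ∈ s) : q ≤ cls s hs := by
  rw [← cls_rep q]
  exact h

theorem ae_of_le_iSup {ι : Type*} [Countable ι] {q : MeasureAlgebra μ} {a : ι → MeasureAlgebra μ}
    (h : q ≤ ⨆ i, a i) : ∀ᵐ ω ∂μ, ω ∈ rep q → ∃ i, ω ∈ rep (a i) := by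
  have h1 : (⨆ i, a i) = cls (⋃ i, rep (a i)) (MeasurableSet.iUnion fun i =>
      measurableSet_rep _) := by
    rw [← iSup_cls (fun i => measurableSet_rep (a i))]
    simp only [cls_rep]
  rw [h1] at h
  filter_upwards [ae_of_le_cls h] with ω hω hq
  exact Set.mem_iUnion.mp (hω hq)

theorem ae_of_le_compl_iInf {ι : Type*} [Countable ι] {q : MeasureAlgebra μ}
    {a : ι → MeasureAlgebra μ} (h : q ≤ (⨅ i, a i)ᶜ) :
    ∀ᵐ ω ∂μ, ω ∈ rep q → ∃ i, ω ∉ rep (a i) := by
  have h1 : (⨅ i, a i) = cls (⋂ i, rep (a i)) (MeasurableSet.iInter fun i =>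
      measurableSet_rep _) := by
    rw [← iInf_cls (fun i => measurableSet_rep (a i))]
    simp only [cls_rep]
  rw [h1, cls_compl] at h
  filter_upwards [ae_of_le_cls h] with ω hω hq
  have h2 := hω hq
  rw [Set.mem_compl_iff, Set.mem_iInter, not_forall] at h2
  exact h2

theorem ae_rep_inf (a b : MeasureAlgebra μ) :
    ∀ᵐ ω ∂μ, ω ∈ rep (a ⊓ b) ↔ (ω ∈ rep a ∧ ω ∈ rep b) := by
  have h : a ⊓ b = cls (rep a ∩ rep b) ((measurableSet_rep a).inter (measurableSet_rep b)) := by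
    rw [← cls_inf (measurableSet_rep a) (measurableSet_rep b), cls_rep, cls_rep]
  rw [h]
  have h2 := rep_cls (μ := μ) ((measurableSet_rep a).inter (measurableSet_rep b))
  filter_upwards [h2] with ω hω
  exact iff_of_eq hω

theorem eq_bot_of_ae {q : MeasureAlgebra μ} (h : ∀ᵐ ω ∂μ, ω ∉ rep q) : q = ⊥ := by
  rw [← cls_rep q, cls_eq_bot]
  exact measure_eq_zero_iff_ae_notMem.mpr h

theorem measure_rep_ne_zero {q : MeasureAlgebra μ} (h : q ≠ ⊥) : μ (rep q) ≠ 0 := by
  intro h2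
  apply h
  rw [← cls_rep q, cls_eq_bot]
  exact h2

theorem exists_ne_bot {ι : Type*} {p : MeasureAlgebra μ} {a : ι → MeasureAlgebra μ} (hp : p ≠ ⊥)
    (h : p ≤ ⨆ i, a i) : ∃ i, p ⊓ a i ≠ ⊥ := by
  by_contra hcon
  push Not at hcon
  apply hp
  have h1 : p = ⨆ i, p ⊓ a i := by rw [← inf_iSup_eq]; exact (inf_eq_left.mpr h).symm
  rw [h1]
  simp [hcon]

end Translate

theorem cnt_ge_exists {Ω : Type*} {P : ℕ → Set Ω} {N c : ℕ} {ω : Ω} (h : c ≤ cnt P N ω) :
    ∃ m : Fin c → ℕ, Function.Injective m ∧ (∀ k, m k < N) ∧ ∀ k, ω ∈ P (m k) := by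
  classical
  rw [cnt_eq_card] at h
  obtain ⟨t, hts, htc⟩ := Finset.exists_subset_card_eq h
  let g := t.orderEmbOfFin htc
  refine ⟨fun k => g k, g.injective, fun k => ?_, fun k => ?_⟩
  · have := hts (Finset.orderEmbOfFin_mem t htc k)
    rw [Finset.mem_filter, Finset.mem_range] at this
    exact this.1
  · have := hts (Finset.orderEmbOfFin_mem t htc k)
    rw [Finset.mem_filter] at this
    exact this.2

/-- `y` has no `n + 2` distinct elements below `f n`. -/
noncomputable def sparse {B : Type u} [CompleteBooleanAlgebra B] (f : ℕ → ℕ) (y : ℕ → B) : B :=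
  ⨅ n : ℕ, ⨅ m : Fin (n + 2) → ℕ, ⨅ _ : Function.Injective m, ⨅ _ : ∀ k, m k < f n,
    (⨅ k, y (m k))ᶜ

theorem ae_sparse {Ω : Type u} [MeasurableSpace Ω] {μ : Measure Ω} [IsFiniteMeasure μ]
    {q : MeasureAlgebra μ} {f : ℕ → ℕ} {y : ℕ → MeasureAlgebra μ} (h : q ≤ sparse f y) :
    ∀ᵐ ω ∂μ, ω ∈ rep q → ∀ n, cnt (fun m => rep (y m)) (f n) ω ≤ n + 1 := by
  have h1 : ∀ᵐ ω ∂μ, ∀ n : ℕ, ∀ m : Fin (n + 2) → ℕ, Function.Injective m →
      (∀ k, m k < f n) → ω ∈ rep q → ∃ k, ω ∉ rep (y (m k)) := by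
    rw [ae_all_iff]; intro n
    rw [ae_all_iff]; intro m
    by_cases hm : Function.Injective m
    · by_cases hm2 : ∀ k, m k < f n
      · have h2 : q ≤ (⨅ k, y (m k))ᶜ := by
          refine h.trans ?_
          unfold sparse
          refine (iInf_le _ n).trans ((iInf_le _ m).trans ((iInf_le _ hm).trans (iInf_le _ hm2)))
        filter_upwards [ae_of_le_compl_iInf h2] with ω hω _ _ hq
        exact hω hq
      · filter_upwards with ω _ h3
        exact absurd h3 hm2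
    · filter_upwards with ω h3
      exact absurd h3 hm
  filter_upwards [h1] with ω hω hq n
  by_contra hcon
  have hcon2 : n + 2 ≤ cnt (fun m => rep (y m)) (f n) ω := by omega
  obtain ⟨m, hm1, hm2, hm3⟩ := cnt_ge_exists hcon2
  obtain ⟨k, hk⟩ := hω n m hm1 hm2 hq
  exact hk (hm3 k)

theorem exists_seq_support {I : Type u} [Nonempty I] {A : Set (I → Bool)} (hA : MeasurableSet A) :
    ∃ g : ℕ → I, MeasurableSet[Fsig (Set.range g)] A := by
  obtain ⟨C, hC, hA⟩ := exists_countable_support hA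
  rcases C.eq_empty_or_nonempty with rfl | hne
  · exact ⟨fun _ => Classical.arbitrary I, Fsig_mono (Set.empty_subset _) _ hA⟩
  · obtain ⟨g, hg⟩ := hC.exists_eq_range hne
    exact ⟨g, hg ▸ hA⟩

theorem exists_fresh {I : Type u} (hI : continuum.{u} < #I)
    (G : (ℕ → ℕ) × ℕ × ℕ × ℕ → I) :
    ∃ e : ℕ × ℕ → I, Function.Injective e ∧ ∀ x, e x ∉ Set.range G := by
  have h1 : #(Set.range G) ≤ continuum.{u} := by
    have h2 := mk_range_le_lift (f := G)
    have h3 : #((ℕ → ℕ) × ℕ × ℕ × ℕ) = continuum.{0} := by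
      simp [mk_prod]
    rw [h3] at h2
    simpa using h2
  have h2 : (Set.range G)ᶜ.Infinite := by
    intro hfin
    have h3 : #(Set.range G) + #((Set.range G)ᶜ : Set I) = #I := mk_sum_compl _
    have h4 : #((Set.range G)ᶜ : Set I) < ℵ₀ := hfin.lt_aleph0
    have h5 : #I ≤ continuum.{u} + ℵ₀ := by
      rw [← h3]; exact add_le_add h1 h4.le
    rw [continuum_add_aleph0] at h5
    exact absurd (lt_of_lt_of_le hI h5) (lt_irrefl _)
  haveI : Infinite ((Set.range G)ᶜ : Set I) := h2.to_subtype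
  let g : ℕ ↪ ((Set.range G)ᶜ : Set I) := Infinite.natEmbedding _
  refine ⟨fun x => g (Nat.pairEquiv x), ?_, fun x => (g _).2⟩
  intro x y hxy
  exact Nat.pairEquiv.injective (g.injective (Subtype.ext hxy))

theorem core {I : Type u} (hI : continuum.{u} < #I)
    (v : (ℕ → MeasureAlgebra (coinMeasure I)) → MeasureAlgebra (coinMeasure I))
    (b : MeasureAlgebra (coinMeasure I)) (hb : b ≠ ⊥)
    (h_inter : ∀ p x y, p ≤ b → p ≤ v x → p ≤ v y → p ≤ v (fun m => x m ⊓ y m))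
    (h_inf : ∀ p x, p ≤ b → p ≤ v x → ∀ k : ℕ, p ≤ ⨆ m : ℕ, ⨆ _ : k ≤ m, x m)
    (h_laver : ∀ (J : ℕ → Type) [∀ n, Fintype (J n)]
      (c : (n : ℕ) → ℕ → J n → MeasureAlgebra (coinMeasure I)),
      (∀ n m (j j' : J n), j ≠ j' → c n m j ⊓ c n m j' = ⊥) →
      (∀ n m, ⨆ j : J n, c n m j = ⊤) →
      b ≤ ⨆ x : ℕ → MeasureAlgebra (coinMeasure I), v x ⊓
        ⨅ n : ℕ, ⨅ i : Fin (n + 2) → J n, ⨅ _ : Function.Injective i, ⨅ m : Fin (n + 2) → ℕ,
          (⨅ k, x (m k) ⊓ c n (m k) (i k))ᶜ) : False := by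
  classical
  have hInf : Infinite I := by
    rw [infinite_iff]
    exact (aleph0_lt_continuum.trans hI).le
  haveI : Nonempty I := inferInstance
  -- rapidity
  have hrapid : ∀ f : ℕ → ℕ, b ≤ ⨆ x, v x ⊓ sparse f x := by
    intro f
    let c : (n : ℕ) → ℕ → Fin (f n + 1) → MeasureAlgebra (coinMeasure I) :=
      fun n m j => if min m (f n) = j then ⊤ else ⊥
    have h1 := h_laver (fun n => Fin (f n + 1)) c (by
      intro n m j j' hne
      simp only [c]
      split_ifs with h1 h2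
      · exact absurd (Fin.ext (h1.symm.trans h2)) hne
      · simp
      · simp
      · simp) (by
      intro n m
      rw [eq_top_iff]
      refine le_iSup_of_le ⟨min m (f n), by omega⟩ ?_
      simp [c])
    refine h1.trans (iSup_mono fun x => inf_le_inf_left _ ?_)
    refine le_iInf fun n => le_iInf fun m => le_iInf fun hm => le_iInf fun hm2 => ?_
    refine (iInf_le _ n).trans ?_
    let i : Fin (n + 2) → Fin (f n + 1) := fun k => ⟨m k, by have := hm2 k; omega⟩
    have hi : Function.Injective i := by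
      intro k k' hkk
      exact hm (congrArg Fin.val hkk)
    refine (iInf_le _ i).trans ((iInf_le _ hi).trans ((iInf_le _ m).trans ?_))
    rw [compl_le_compl_iff_le]
    refine le_iInf fun k => le_inf (iInf_le _ k) ?_
    have h3 : min (m k) (f n) = m k := min_eq_left (hm2 k).le
    simp [c, i, h3]
  have hg : ∀ f : ℕ → ℕ, ∃ g : ℕ → (ℕ → MeasureAlgebra (coinMeasure I)),
      b ≤ ⨆ n, v (g n) ⊓ sparse f (g n) := by
    intro f
    obtain ⟨g, hg⟩ := exists_seq_iSup (fun x : ℕ → MeasureAlgebra (coinMeasure I) =>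
      v x ⊓ sparse f x)
    exact ⟨g, (hrapid f).trans hg.le⟩
  choose g hg using hg
  have hσ : ∀ a : MeasureAlgebra (coinMeasure I), ∃ s : ℕ → I,
      MeasurableSet[Fsig (Set.range s)] (rep a) := fun a =>
    exists_seq_support (measurableSet_rep a)
  choose σ hσ using hσ
  let G : (ℕ → ℕ) × ℕ × ℕ × ℕ → I := fun t => σ (g t.1 t.2.1 t.2.2.1) t.2.2.2
  obtain ⟨e, he, heG⟩ := exists_fresh hI G
  have hsupp : ∀ f n m, MeasurableSet[Fsig (Set.range G)] (rep (g f n m)) := by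
    intro f n m
    refine Fsig_mono ?_ _ (hσ (g f n m))
    rintro _ ⟨k, rfl⟩
    exact ⟨(f, n, m, k), rfl⟩
  -- the random colouring
  let cs : (n : ℕ) → ℕ → (Fin n → Bool) → Set (I → Bool) :=
    fun n m s => ⋂ j : Fin n, {ω | ω (e (m, (j : ℕ))) = s j}
  have hcs : ∀ n m s, MeasurableSet (cs n m s) := fun n m s =>
    MeasurableSet.iInter fun j => measurableSet_eq_fun (measurable_pi_apply _) measurable_const
  let c : (n : ℕ) → ℕ → (Fin n → Bool) → MeasureAlgebra (coinMeasure I) :=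
    fun n m s => cls (cs n m s) (hcs n m s)
  have h1 := h_laver (fun n => Fin n → Bool) c (by
      intro n m j j' hne
      simp only [c]
      rw [cls_inf, cls_eq_bot]
      have : cs n m j ∩ cs n m j' = ∅ := by
        rw [Set.eq_empty_iff_forall_notMem]
        rintro ω ⟨h1, h2⟩
        apply hne
        funext k
        exact (Set.mem_iInter.mp h1 k).symm.trans (Set.mem_iInter.mp h2 k)
      rw [this, measure_empty]) (by
      intro n m
      rw [iSup_cls (fun s => hcs n m s), ← cls_univ]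
      congr 1
      rw [Set.eq_univ_iff_forall]
      intro ω
      refine Set.mem_iUnion.mpr ⟨fun j => ω (e (m, (j : ℕ))), ?_⟩
      exact Set.mem_iInter.mpr fun j => rfl)
  obtain ⟨x, hx⟩ := exists_ne_bot hb h1
  set L : MeasureAlgebra (coinMeasure I) :=
    ⨅ n : ℕ, ⨅ i : Fin (n + 2) → (Fin n → Bool), ⨅ _ : Function.Injective i,
      ⨅ m : Fin (n + 2) → ℕ, (⨅ k, x (m k) ⊓ c n (m k) (i k))ᶜ with hL
  set p : MeasureAlgebra (coinMeasure I) := b ⊓ (v x ⊓ L) with hp
  have hpb : p ≤ b := inf_le_left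
  have hpv : p ≤ v x := inf_le_right.trans inf_le_left
  have hpL : p ≤ L := inf_le_right.trans inf_le_right
  let X : ℕ → Set (I → Bool) := fun m => rep (x m) ∩ rep p
  have hX : ∀ m, MeasurableSet (X m) := fun m => (measurableSet_rep _).inter (measurableSet_rep _)
  have hcol : ∀ n, ∀ᵐ ω ∂(coinMeasure I), ∀ A : Finset ℕ, n + 2 ≤ A.card → (∀ m ∈ A, ω ∈ X m) →
      ∃ m ∈ A, ∃ m' ∈ A, m < m' ∧ ω ∈ agree e n m m' := by
    intro n
    have h2 : ∀ᵐ ω ∂(coinMeasure I), ∀ i : Fin (n + 2) → (Fin n → Bool), Function.Injective i →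
        ∀ m : Fin (n + 2) → ℕ, ω ∈ rep p → ∃ k, ω ∉ rep (x (m k) ⊓ c n (m k) (i k)) := by
      rw [ae_all_iff]; intro i
      by_cases hi : Function.Injective i
      · have h3 : ∀ᵐ ω ∂(coinMeasure I), ∀ m : Fin (n + 2) → ℕ, ω ∈ rep p →
            ∃ k, ω ∉ rep (x (m k) ⊓ c n (m k) (i k)) := by
          rw [ae_all_iff]; intro m
          have h4 : p ≤ (⨅ k, x (m k) ⊓ c n (m k) (i k))ᶜ :=
            hpL.trans ((iInf_le _ n).trans ((iInf_le _ i).trans ((iInf_le _ hi).trans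
              (iInf_le _ m))))
          exact ae_of_le_compl_iInf h4
        filter_upwards [h3] with ω hω _
        exact hω
      · filter_upwards with ω h3
        exact absurd h3 hi
    have h3 : ∀ᵐ ω ∂(coinMeasure I), ∀ m : ℕ, ∀ s : Fin n → Bool,
        ω ∈ rep (x m ⊓ c n m s) ↔ (ω ∈ rep (x m) ∧ ω ∈ cs n m s) := by
      rw [ae_all_iff]; intro m
      rw [ae_all_iff]; intro s
      filter_upwards [ae_rep_inf (x m) (c n m s), rep_cls (μ := coinMeasure I) (hcs n m s)] with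
        ω hω hω2
      rw [hω]
      have h4 : ω ∈ rep (c n m s) ↔ ω ∈ cs n m s := iff_of_eq hω2
      rw [h4]
    filter_upwards [h2, h3] with ω hω hω3 A hA hAX
    by_contra hcon
    push Not at hcon
    obtain ⟨t, hts, htc⟩ := Finset.exists_subset_card_eq hA
    let m : Fin (n + 2) → ℕ := fun k => t.orderEmbOfFin htc k
    have hmA : ∀ k, m k ∈ A := fun k => hts (Finset.orderEmbOfFin_mem t htc k)
    let i : Fin (n + 2) → (Fin n → Bool) := fun k j => ω (e (m k, (j : ℕ)))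
    have hlt : ∀ k k', k < k' → i k ≠ i k' := by
      intro k k' hkk hii
      have hmm : m k < m k' := (t.orderEmbOfFin htc).strictMono hkk
      apply hcon (m k) (hmA k) (m k') (hmA k') hmm
      intro j hj
      exact congrFun hii ⟨j, hj⟩
    have hi : Function.Injective i := by
      intro k k' hkk
      rcases lt_trichotomy k k' with h | h | h
      · exact absurd hkk (hlt k k' h)
      · exact h
      · exact absurd hkk.symm (hlt k' k h)
    have hωp : ω ∈ rep p := (hAX (m 0) (hmA 0)).2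
    obtain ⟨k, hk⟩ := hω i hi m hωp
    apply hk
    rw [hω3]
    exact ⟨(hAX (m k) (hmA k)).1, Set.mem_iInter.mpr fun j => rfl⟩
  have hfew := fun ε hε => few_colours (μ := coinMeasure I) (Fsig_le (Set.range G)) hX
    (D := fun n m m' => agree e n m m') (fun n m m' => measurableSet_agree e n m m')
    (fun n m m' hmm S hS => (agree_indep he heG hmm n hS).1) hcol ε hε
  have hpbot : p ≠ ⊥ := hx
  obtain ⟨f, T, hT, hTμ, hfin⟩ := exists_scale (Fsig_le (Set.range G)) hX hfew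
    (coinMeasure I (rep p)) (measure_rep_ne_zero hpbot)
  have hT0 : MeasurableSet T := Fsig_le _ _ hT
  -- the condition `p ⊓ T`
  have hpT : p ⊓ cls T hT0 ≠ ⊥ := by
    intro h
    rw [← cls_rep p, cls_inf, cls_eq_bot] at h
    have h2 : coinMeasure I (rep p) ≤ coinMeasure I (rep p ∩ T) + coinMeasure I Tᶜ := by
      refine (measure_mono ?_).trans (measure_union_le _ _)
      intro ω hω
      by_cases hωT : ω ∈ T
      · exact Or.inl ⟨hω, hωT⟩
      · exact Or.inr hωT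
    rw [h, zero_add] at h2
    exact absurd (lt_of_le_of_lt h2 hTμ) (lt_irrefl _)
  obtain ⟨n, hn⟩ := exists_ne_bot hpT ((inf_le_left.trans hpb).trans (hg f))
  set y := g f n with hy
  set q : MeasureAlgebra (coinMeasure I) := p ⊓ cls T hT0 ⊓ (v y ⊓ sparse f y) with hq
  have hqp : q ≤ p := inf_le_left.trans inf_le_left
  have hqT : q ≤ cls T hT0 := inf_le_left.trans inf_le_right
  have hqy : q ≤ v y := inf_le_right.trans inf_le_left
  have hqs : q ≤ sparse f y := inf_le_right.trans inf_le_right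
  have hqxy : q ≤ v (fun m => x m ⊓ y m) :=
    h_inter q x y (hqp.trans hpb) (hqp.trans hpv) hqy
  have hYm : ∀ m, MeasurableSet[Fsig (Set.range G)] (rep (y m)) := fun m => hsupp f n m
  have hmain := hfin (fun m => rep (y m)) hYm
  apply hn
  apply eq_bot_of_ae
  have hinf : ∀ᵐ ω ∂(coinMeasure I), ∀ k : ℕ, ω ∈ rep q → ∃ m, k ≤ m ∧ ω ∈ rep (x m ⊓ y m) := by
    rw [ae_all_iff]; intro k
    have h2 := h_inf q _ (hqp.trans hpb) hqxy k
    have h3 : (⨆ m : ℕ, ⨆ _ : k ≤ m, x m ⊓ y m) ≤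
        ⨆ m : {m : ℕ // k ≤ m}, x m ⊓ y m :=
      iSup_le fun m => iSup_le fun hm =>
        le_iSup (fun m : {m : ℕ // k ≤ m} => x m ⊓ y m) ⟨m, hm⟩
    filter_upwards [ae_of_le_iSup (h2.trans h3)] with ω hω hωq
    obtain ⟨m, hm⟩ := hω hωq
    exact ⟨m, m.2, hm⟩
  have hxy : ∀ᵐ ω ∂(coinMeasure I), ∀ m : ℕ,
      ω ∈ rep (x m ⊓ y m) ↔ (ω ∈ rep (x m) ∧ ω ∈ rep (y m)) := by
    rw [ae_all_iff]; intro m
    exact ae_rep_inf _ _
  filter_upwards [hmain, hinf, hxy, ae_of_le hqp, ae_of_le_cls hqT, ae_sparse hqs] with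
    ω h1 h2 h3 h4 h5 h6 hωq
  obtain ⟨N, hN⟩ := h1 (h5 hωq) (h6 hωq)
  obtain ⟨m, hm, hmxy⟩ := h2 N hωq
  rw [h3] at hmxy
  exact hN m hm ⟨⟨hmxy.1, h4 hωq⟩, hmxy.2⟩

end Pool.Agent.MPa4e7db
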