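import Mathlib
import Pool.Agent.Lib.MP_a4e7db_lc.Core

/-!
Transfer of the core argument to any complete Boolean algebra which is the measure algebra of the
coin-tossing measure up to isomorphism.
-/

namespace Pool.Agent.MPa4e7db

open MeasureTheory MeasureAlgebra Cardinal

universe u

section

variable {Ω : Type u} [MeasurableSpace Ω] {μ : Measure Ω} {B : Type u} [CompleteBooleanAlgebra B]
  (π : {s : Set Ω // MeasurableSet s} → B) (hsurj : Function.Surjective π)
  (hle : ∀ s t, π s ≤ π t ↔ μ ((s : Set Ω) \ (t : Set Ω)) = 0)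

/-- The order isomorphism from the concrete measure algebra. -/
noncomputable def toIso : MeasureAlgebra μ ≃o B :=
  RelIso.ofSurjective
    (OrderEmbedding.ofMapLEIff
      (fun a : MeasureAlgebra μ => Quotient.liftOn a π (by
        intro s t h
        have h' : (s : Set Ω) =ᵐ[μ] (t : Set Ω) := h
        apply le_antisymm
        · rw [hle]; exact ae_le_set.mp h'.le
        · rw [hle]; exact ae_le_set.mp h'.symm.le))
      (by
        intro a b
        induction a using MeasureAlgebra.ind with | _ s hs =>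
        induction b using MeasureAlgebra.ind with | _ t ht =>
        change π ⟨s, hs⟩ ≤ π ⟨t, ht⟩ ↔ _
        rw [hle, cls_le_cls]
        exact ae_le_set.symm))
    (by
      intro b
      obtain ⟨s, rfl⟩ := hsurj b
      exact ⟨cls s.1 s.2, rfl⟩)

end

theorem core_iso {I : Type u} (hI : continuum.{u} < #I) {B : Type u} [CompleteBooleanAlgebra B]
    (e : MeasureAlgebra (coinMeasure I) ≃o B) (v : (ℕ → B) → B) (b : B) (hb : b ≠ ⊥)
    (h_inter : ∀ p x y, p ≤ b → p ≤ v x → p ≤ v y → p ≤ v (fun m => x m ⊓ y m))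
    (h_inf : ∀ p x, p ≤ b → p ≤ v x → ∀ k : ℕ, p ≤ ⨆ m : ℕ, ⨆ _ : k ≤ m, x m)
    (h_laver : ∀ (J : ℕ → Type) [∀ n, Fintype (J n)] (c : (n : ℕ) → ℕ → J n → B),
      (∀ n m (j j' : J n), j ≠ j' → c n m j ⊓ c n m j' = ⊥) →
      (∀ n m, ⨆ j : J n, c n m j = ⊤) →
      b ≤ ⨆ x : ℕ → B, v x ⊓
        ⨅ n : ℕ, ⨅ i : Fin (n + 2) → J n, ⨅ _ : Function.Injective i, ⨅ m : Fin (n + 2) → ℕ,
          (⨅ k, x (m k) ⊓ c n (m k) (i k))ᶜ) : False := by
  have hsymm_le : ∀ p b, p ≤ e.symm b ↔ e p ≤ b := fun p b => OrderIso.le_symm_apply e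
  refine core hI (fun x => e.symm (v fun m => e (x m))) (e.symm b) ?_ ?_ ?_ ?_
  · intro h
    apply hb
    have := congrArg e h
    rwa [OrderIso.apply_symm_apply, OrderIso.map_bot] at this
  · intro p x y hp hx hy
    rw [hsymm_le] at hp hx hy ⊢
    have := h_inter (e p) _ _ hp hx hy
    simpa only [OrderIso.map_inf] using this
  · intro p x hp hx k
    rw [hsymm_le] at hp hx
    have := h_inf (e p) _ hp hx k
    rw [← hsymm_le] at this
    simpa only [OrderIso.map_iSup, OrderIso.symm_apply_apply] using this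
  · intro J _ c hdisj hcov
    have h1 := h_laver J (fun n m j => e (c n m j))
      (fun n m j j' hne => by
        rw [← OrderIso.map_inf, hdisj n m j j' hne, OrderIso.map_bot])
      (fun n m => by
        rw [← OrderIso.map_iSup, hcov n m, OrderIso.map_top])
    have h2 : e.symm b ≤ e.symm (⨆ x : ℕ → B, v x ⊓
        ⨅ n : ℕ, ⨅ i : Fin (n + 2) → J n, ⨅ _ : Function.Injective i, ⨅ m : Fin (n + 2) → ℕ,
          (⨅ k, x (m k) ⊓ e (c n (m k) (i k)))ᶜ) := e.symm.monotone h1
    refine h2.trans ?_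
    rw [OrderIso.map_iSup]
    refine iSup_le fun x => ?_
    refine le_iSup_of_le (fun m => e.symm (x m)) ?_
    have hcompl : ∀ a : B, e.symm aᶜ = (e.symm a)ᶜ := fun a => map_compl' e.symm a
    have hx : (fun m => e (e.symm (x m))) = x := by
      funext m; exact e.apply_symm_apply _
    rw [OrderIso.map_inf]
    simp only [OrderIso.map_iInf, hcompl, OrderIso.map_inf, OrderIso.symm_apply_apply, hx]
    exact le_rfl

end Pool.Agent.MPa4e7db
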