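import Mathlib
import Pool.Agent.Lib.MP_a4e7db_lc.Omega

/-!
Consequences of `isLaverUltrafilterB U ω` in terms of the Boolean values
`u x = ⟦setN x ∈ U⟧`, `x : ℕ → B`.
-/

namespace Pool.Agent.MPa4e7db

universe u

variable {B : Type u} [CompleteBooleanAlgebra B]

section Ultra

variable {U : BName B} {b : B}

theorem uf_inter (h : b ≤ isUltrafilterB U omegaN) {p : B} (hp : p ≤ b) {x y : ℕ → B}
    (hx : p ≤ memB (setN x) U) (hy : p ≤ memB (setN y) U) :
    p ≤ memB (setN fun m => x m ⊓ y m) U := by
  have h1 := (hp.trans h).trans (inf_le_left.trans inf_le_right)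
  exact himp_mp (iInf_mp (iInf_mp (iInf_mp h1 (setN x)) (setN y)) _)
    (le_inf (le_inf hx hy) (isInterB_setN p x y))

theorem uf_nonempty (h : b ≤ isUltrafilterB U omegaN) {p : B} (hp : p ≤ b) {x : ℕ → B}
    (hx : p ≤ memB (setN x) U) : p ≤ ⨆ m, x m := by
  have h1 : b ≤ ⨅ e : BName B, isEmptyB e ⇨ (memB e U)ᶜ :=
    h.trans (inf_le_left.trans (inf_le_left.trans (inf_le_left.trans inf_le_right)))
  have key : p ⊓ (⨆ m, x m)ᶜ = ⊥ := by
    rw [eq_bot_iff]
    have hE : p ⊓ (⨆ m, x m)ᶜ ≤ isEmptyB (setN x) := by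
      refine le_iInf fun z => compl_intro fun q hq hqz => ?_
      rw [memB_setN] at hqz
      rw [eq_bot_iff]
      refine iSup_elim hqz fun i r hr hri => ?_
      have h3 : r ≤ (⨆ m, x m)ᶜ := (hr.trans hq).trans inf_le_right
      exact compl_mp h3 (iSup_intro i (hri.trans inf_le_left))
    have h2 := himp_mp (iInf_mp ((inf_le_left.trans hp).trans h1) (setN x)) hE
    exact compl_mp h2 (inf_le_left.trans hx)
  rw [← compl_compl (⨆ m, x m)]
  exact compl_intro fun q hq hq2 => by
    rw [eq_bot_iff, ← key]
    exact le_inf hq hq2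

theorem uf_remove (h : b ≤ isUltrafilterB U omegaN) (h' : b ≤ isNonprincipalB U omegaN) {p : B}
    (hp : p ≤ b) {x : ℕ → B} (hx : p ≤ memB (setN x) U) (n : ℕ) :
    p ≤ memB (setN fun m => x m ⊓ (if m = n then ⊥ else ⊤)) U := by
  classical
  refine uf_inter h hp hx ?_
  have h1 : b ≤ ⨅ x : BName B, ⨅ y : BName B, subB x omegaN ⊓ isDiffB y omegaN x ⇨
      memB x U ⊔ memB y U := h.trans inf_le_right
  let s : ℕ → B := fun m => if m = n then ⊤ else ⊥
  have h2 := himp_mp (iInf_mp (iInf_mp (hp.trans h1) (setN s)) (setN fun m => (s m)ᶜ))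
    (le_inf (subB_setN_omegaN p s) (isDiffB_setN p s))
  have h3 : (fun m => (s m)ᶜ) = (fun m => if m = n then ⊥ else ⊤) := by
    funext m
    by_cases hm : m = n <;> simp [s, hm]
  rw [h3] at h2
  refine sup_elim h2 (fun q hq hq2 => ?_) (fun q hq hq2 => hq2)
  have hs : q ≤ isUPairB (setN s) (natN n) (natN n) := by
    rw [isUPairB_eq]
    apply eqB_ext
    · intro z r _ hz
      rw [memB_setN] at hz
      rw [memB_upair, sup_idem]
      refine iSup_elim hz fun i t ht hti => ?_
      by_cases hi : i = n
      · subst hi; exact hti.trans inf_le_right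
      · have : t ≤ s i := hti.trans inf_le_left
        simp only [s, hi, if_false] at this
        exact this.trans bot_le
    · intro z r _ hz
      rw [memB_upair, sup_idem] at hz
      rw [memB_setN]
      refine iSup_intro n (le_inf ?_ hz)
      simp [s]
  have h4 := (hq.trans hp).trans h'
  have h5 := himp_mp (iInf_mp (iInf_mp h4 (natN n)) (setN s))
    (le_inf (by rw [natN_mem_omegaN]; exact le_top) hs)
  exact compl_mp h5 hq2

theorem uf_tail (h : b ≤ isUltrafilterB U omegaN) (h' : b ≤ isNonprincipalB U omegaN) {p : B}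
    (hp : p ≤ b) {x : ℕ → B} (hx : p ≤ memB (setN x) U) (k : ℕ) :
    p ≤ memB (setN fun m => x m ⊓ (if m < k then ⊥ else ⊤)) U := by
  induction k with
  | zero => simpa using hx
  | succ k ih =>
    have h1 := uf_remove h h' hp ih k
    refine le_trans h1 (le_of_eq ?_)
    congr 2
    funext m
    rw [inf_assoc]
    congr 1
    rcases lt_trichotomy m k with h2 | h2 | h2
    · have h3 : m < k + 1 := by omega
      simp [h2, h3]
    · subst h2; simp
    · have h3 : ¬ m < k := by omega
      have h4 : ¬ m = k := by omega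
      have h5 : ¬ m < k + 1 := by omega
      simp [h3, h4, h5]

/-- Sets in a nonprincipal ultrafilter are infinite. -/
theorem uf_infinite (h : b ≤ isUltrafilterB U omegaN) (h' : b ≤ isNonprincipalB U omegaN) {p : B}
    (hp : p ≤ b) {x : ℕ → B} (hx : p ≤ memB (setN x) U) (k : ℕ) :
    p ≤ ⨆ m : ℕ, ⨆ _ : k ≤ m, x m := by
  have h1 := uf_nonempty h hp (uf_tail h h' hp hx k)
  refine iSup_elim h1 fun m q hq hqm => ?_
  by_cases hm : m < k
  · simp only [hm, if_true, inf_bot_eq] at hqm
    exact hqm.trans bot_le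
  · refine iSup_intro m (iSup_intro (not_lt.mp hm) (hqm.trans inf_le_left))

end Ultra

/-! ### Finite choice -/

theorem finite_choice {K T : Type*} [Finite K] [Nonempty T] {R : K → T → B} {q ψ : B}
    (h : ∀ k, q ≤ ⨆ t, R k t)
    (h2 : ∀ (g : K → T) (r : B), r ≤ q → (∀ k, r ≤ R k (g k)) → r ≤ ψ) : q ≤ ψ := by
  classical
  haveI := Fintype.ofFinite K
  have key : ∀ S : Finset K,
      (∀ (g : K → T) (r : B), r ≤ q → (∀ k ∈ S, r ≤ R k (g k)) → r ≤ ψ) → q ≤ ψ := by
    intro S
    induction S using Finset.induction_on with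
    | empty =>
      intro h3
      exact h3 (fun _ => Classical.arbitrary T) q le_rfl (by simp)
    | insert a S ha ih =>
      intro h3
      apply ih
      intro g r hr hrS
      refine iSup_elim (hr.trans (h a)) fun t s hs hst => ?_
      refine h3 (Function.update g a t) s (hs.trans hr) ?_
      intro k hk
      rcases Finset.mem_insert.mp hk with rfl | hk
      · rw [Function.update_self]; exact hst
      · have hne : k ≠ a := fun h => ha (h ▸ hk)
        rw [Function.update_of_ne hne]
        exact hs.trans (hrS k hk)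
  exact key Finset.univ fun g r hr hg => h2 g r hr fun k => hg k (Finset.mem_univ k)

/-! ### Partition sequences -/

section Part

variable {J : ℕ → Type} [∀ n, Fintype (J n)] (c : (n : ℕ) → ℕ → J n → B)

/-- The name of the piece `j` of the `n`-th partition. -/
def pieceN (n : ℕ) (j : J n) : BName B := setN fun m => c n m j

/-- The name of the `n`-th partition. -/
def partN (n : ℕ) : BName B :=
  BName.mk (ULift.{u} (J n)) (fun j => pieceN c n j.down) (fun j => ⨆ m, c n m j.down)

/-- The name of the sequence of partitions. -/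
def seqN : BName B :=
  BName.mk (ULift.{u} ℕ) (fun n => opair (natN n.down) (partN c n.down)) (fun _ => ⊤)

theorem memB_partN (t : BName B) (n : ℕ) :
    memB t (partN c n) = ⨆ j : J n, (⨆ m, c n m j) ⊓ eqB t (pieceN c n j) := by
  rw [partN, memB_mk]
  apply le_antisymm
  · exact iSup_le fun j => le_iSup_of_le j.down le_rfl
  · exact iSup_le fun j => iSup_intro ⟨j⟩ le_rfl

theorem memB_seqN (t : BName B) :
    memB t (seqN c) = ⨆ n : ℕ, eqB t (opair (natN n) (partN c n)) := by
  rw [seqN, memB_mk]
  apply le_antisymm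
  · exact iSup_le fun j => le_iSup_of_le j.down inf_le_right
  · exact iSup_le fun j => iSup_intro ⟨j⟩ (le_inf le_top le_rfl)

theorem relB_seqN (x y : BName B) :
    relB (seqN c) x y = ⨆ n : ℕ, eqB x (natN n) ⊓ eqB y (partN c n) := by
  rw [relB_eq, memB_seqN]
  simp only [eqB_opair]

variable {c}

theorem piece_disj (hdisj : ∀ n m (j j' : J n), j ≠ j' → c n m j ⊓ c n m j' = ⊥) {n : ℕ}
    {j j' : J n} (hne : j ≠ j') {p : B} (h1 : p ≤ ⨆ m, c n m j)
    (h2 : p ≤ eqB (pieceN c n j) (pieceN c n j')) : p = ⊥ := by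
  rw [eq_bot_iff]
  refine iSup_elim h1 fun m q hq hqm => ?_
  have h3 : q ≤ memB (natN m) (pieceN c n j) := by
    rw [pieceN, memB_natN_setN]; exact hqm
  have h4 := memB_congr_right (hq.trans h2) h3
  rw [pieceN, memB_natN_setN] at h4
  rw [← hdisj n m j j' hne]
  exact le_inf hqm h4

theorem isFunOnB_seqN (p : B) : p ≤ isFunOnB (seqN c) omegaN := by
  refine le_inf (le_inf ?_ ?_) ?_
  · refine le_iInf fun z => himp_intro fun q _ hqz => ?_
    rw [memB_seqN] at hqz
    refine iSup_elim hqz fun n r _ hrn => ?_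
    refine iSup_intro (natN n) (iSup_intro (partN c n) (le_inf ?_ ?_))
    · rw [natN_mem_omegaN]; exact le_top
    · rw [isOPairB_eq]; exact hrn
  · refine le_iInf fun x => himp_intro fun q _ hqx => ?_
    rw [memB_omegaN] at hqx
    refine iSup_elim hqx fun n r _ hrn => ?_
    refine iSup_intro (partN c n) ?_
    rw [relB_seqN]
    exact iSup_intro n (le_inf hrn (le_eqB_refl _ _))
  · refine le_iInf fun x => le_iInf fun y => le_iInf fun y' => himp_intro fun q _ hq => ?_
    have h1 := hq.trans inf_le_left
    have h2 := hq.trans inf_le_right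
    rw [relB_seqN] at h1 h2
    refine iSup_elim h1 fun n r hr hrn => ?_
    refine iSup_elim (hr.trans h2) fun n' s hs hsn => ?_
    by_cases hnn : n = n'
    · subst hnn
      exact eqB.trans ((hs.trans hrn).trans inf_le_right) (eqB.symm (hsn.trans inf_le_right))
    · have h3 : s ≤ eqB (natN n) (natN n') :=
        eqB.trans (eqB.symm ((hs.trans hrn).trans inf_le_left)) (hsn.trans inf_le_left)
      rw [eqB_natN_ne hnn] at h3
      exact h3.trans bot_le

theorem isPartitionB_partN (hdisj : ∀ n m (j j' : J n), j ≠ j' → c n m j ⊓ c n m j' = ⊥)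
    (hcov : ∀ n m, ⨆ j : J n, c n m j = ⊤) (n : ℕ) (p : B) :
    p ≤ isPartitionB (partN c n) omegaN := by
  refine le_inf (le_inf ?_ ?_) ?_
  · refine le_iInf fun a => himp_intro fun q _ hqa => ?_
    rw [memB_partN] at hqa
    refine iSup_elim hqa fun j r _ hrj => ?_
    have hra := hrj.trans inf_le_right
    refine le_inf ?_ ?_
    · refine le_iInf fun z => himp_intro fun s hs hsz => ?_
      have h1 := memB_congr_right (hs.trans hra) hsz
      exact himp_mp (iInf_mp (subB_setN_omegaN s _) z) h1
    · refine iSup_elim (hrj.trans inf_le_left) fun m s hs hsm => ?_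
      refine iSup_intro (natN m) ?_
      refine memB_congr_right (eqB.symm (hs.trans hra)) ?_
      rw [pieceN, memB_natN_setN]; exact hsm
  · refine le_iInf fun a => le_iInf fun a' => himp_intro fun q _ hq => ?_
    have h1 := hq.trans (inf_le_left.trans inf_le_left)
    have h2 := hq.trans (inf_le_left.trans inf_le_right)
    have h3 := hq.trans inf_le_right
    rw [memB_partN] at h1 h2
    refine iSup_elim h1 fun j r hr hrj => ?_
    refine iSup_elim (hr.trans h2) fun j' s hs hsj => ?_
    refine iSup_elim ((hs.trans hr).trans h3) fun t v hv hvt => ?_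
    have h4 : v ≤ memB t (pieceN c n j) :=
      memB_congr_right (((hv.trans hs).trans hrj).trans inf_le_right) (hvt.trans inf_le_left)
    have h5 : v ≤ memB t (pieceN c n j') :=
      memB_congr_right ((hv.trans hsj).trans inf_le_right) (hvt.trans inf_le_right)
    by_cases hjj : j = j'
    · subst hjj
      exact eqB.trans (((hv.trans hs).trans hrj).trans inf_le_right)
        (eqB.symm ((hv.trans hsj).trans inf_le_right))
    · have h6 := h4
      rw [pieceN, memB_setN] at h6
      refine iSup_elim h6 fun m w hw hwm => ?_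
      have h7 : w ≤ memB (natN m) (pieceN c n j') :=
        memB_congr_left (hwm.trans inf_le_right) (hw.trans h5)
      rw [pieceN, memB_natN_setN] at h7
      have h8 : w ≤ c n m j ⊓ c n m j' := le_inf (hwm.trans inf_le_left) h7
      rw [hdisj n m j j' hjj] at h8
      exact h8.trans bot_le
  · refine le_iInf fun t => himp_intro fun q _ hqt => ?_
    rw [memB_omegaN] at hqt
    refine iSup_elim hqt fun m r _ hrm => ?_
    have h1 : r ≤ ⨆ j : J n, c n m j := by rw [hcov]; exact le_top
    refine iSup_elim h1 fun j s hs hsj => ?_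
    refine iSup_intro (pieceN c n j) (le_inf ?_ ?_)
    · rw [memB_partN]
      exact iSup_intro j (le_inf (iSup_intro m hsj) (le_eqB_refl _ _))
    · refine memB_congr_left (eqB.symm (hs.trans hrm)) ?_
      rw [pieceN, memB_natN_setN]; exact hsj

theorem isFiniteB_partN (hdisj : ∀ n m (j j' : J n), j ≠ j' → c n m j ⊓ c n m j' = ⊥)
    (n : ℕ) (p : B) : p ≤ isFiniteB (partN c n) omegaN := by
  classical
  let e := Fintype.equivFin (J n)
  refine iSup_intro (natN (Fintype.card (J n))) (le_inf ?_ ?_)
  · rw [natN_mem_omegaN]; exact le_top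
  -- the injection
  let f : BName B := BName.mk (ULift.{u} (J n))
    (fun j => opair (pieceN c n j.down) (natN (e j.down : ℕ))) (fun j => ⨆ m, c n m j.down)
  have hf : ∀ t, memB t f =
      ⨆ j : J n, (⨆ m, c n m j) ⊓ eqB t (opair (pieceN c n j) (natN (e j : ℕ))) := by
    intro t
    apply le_antisymm
    · exact iSup_le fun j => le_iSup_of_le j.down le_rfl
    · exact iSup_le fun j => iSup_intro ⟨j⟩ le_rfl
  have hrel : ∀ x y, relB f x y =
      ⨆ j : J n, (⨆ m, c n m j) ⊓ (eqB x (pieceN c n j) ⊓ eqB y (natN (e j : ℕ))) := by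
    intro x y
    rw [relB_eq, hf]
    simp only [eqB_opair]
  refine iSup_intro f (le_inf (le_inf (le_inf (le_inf ?_ ?_) ?_) ?_) ?_)
  · refine le_iInf fun z => himp_intro fun q _ hqz => ?_
    rw [hf] at hqz
    refine iSup_elim hqz fun j r _ hrj => ?_
    refine iSup_intro (pieceN c n j) (iSup_intro (natN (e j : ℕ)) (le_inf ?_ ?_))
    · rw [memB_partN]
      exact iSup_intro j (le_inf (hrj.trans inf_le_left) (le_eqB_refl _ _))
    · rw [isOPairB_eq]; exact hrj.trans inf_le_right
  · refine le_iInf fun x => himp_intro fun q _ hqx => ?_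
    rw [memB_partN] at hqx
    refine iSup_elim hqx fun j r _ hrj => ?_
    refine iSup_intro (natN (e j : ℕ)) ?_
    rw [hrel]
    exact iSup_intro j (le_inf (hrj.trans inf_le_left) (le_inf (hrj.trans inf_le_right)
      (le_eqB_refl _ _)))
  · refine le_iInf fun x => le_iInf fun y => le_iInf fun y' => himp_intro fun q _ hq => ?_
    have h1 := hq.trans inf_le_left
    have h2 := hq.trans inf_le_right
    rw [hrel] at h1 h2
    refine iSup_elim h1 fun j r hr hrj => ?_
    refine iSup_elim (hr.trans h2) fun j' s hs hsj => ?_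
    by_cases hjj : j = j'
    · subst hjj
      exact eqB.trans ((hs.trans hrj).trans (inf_le_right.trans inf_le_right))
        (eqB.symm (hsj.trans (inf_le_right.trans inf_le_right)))
    · have h3 : s ≤ eqB (pieceN c n j) (pieceN c n j') :=
        eqB.trans (eqB.symm ((hs.trans hrj).trans (inf_le_right.trans inf_le_left)))
          (hsj.trans (inf_le_right.trans inf_le_left))
      rw [piece_disj hdisj hjj ((hs.trans hrj).trans inf_le_left) h3]
      exact bot_le
  · refine le_iInf fun x => le_iInf fun y => himp_intro fun q _ hq => ?_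
    rw [hrel] at hq
    refine iSup_elim hq fun j r _ hrj => ?_
    refine memB_congr_left (eqB.symm (hrj.trans (inf_le_right.trans inf_le_right))) ?_
    rw [memB_natN_lt (e j).2]; exact le_top
  · refine le_iInf fun x => le_iInf fun x' => le_iInf fun y => himp_intro fun q _ hq => ?_
    have h1 := hq.trans inf_le_left
    have h2 := hq.trans inf_le_right
    rw [hrel] at h1 h2
    refine iSup_elim h1 fun j r hr hrj => ?_
    refine iSup_elim (hr.trans h2) fun j' s hs hsj => ?_
    by_cases hjj : j = j'
    · subst hjj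
      exact eqB.trans ((hs.trans hrj).trans (inf_le_right.trans inf_le_left))
        (eqB.symm (hsj.trans (inf_le_right.trans inf_le_left)))
    · have h3 : s ≤ eqB (natN (e j : ℕ)) (natN (e j' : ℕ)) :=
        eqB.trans (eqB.symm ((hs.trans hrj).trans (inf_le_right.trans inf_le_right)))
          (hsj.trans (inf_le_right.trans inf_le_right))
      rw [eqB_natN_ne (fun h => hjj (e.injective (Fin.ext h)))] at h3
      exact h3.trans bot_le

theorem ext_subB_left (y : BName B) : Ext (fun x => subB x y) :=
  ext_iInf fun z => ext_himp (ext_memB_right z) (ext_const _)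

theorem ext_isPartitionB_left (w : BName B) : Ext (fun A => isPartitionB A w) := by
  refine ext_inf (ext_inf ?_ ?_) ?_
  · exact ext_iInf fun a => ext_himp (ext_memB_right a) (ext_const _)
  · exact ext_iInf fun a => ext_iInf fun a' => ext_himp (ext_inf (ext_inf (ext_memB_right a)
      (ext_memB_right a')) (ext_const _)) (ext_const _)
  · exact ext_iInf fun m => ext_himp (ext_const _) (ext_iSup fun a =>
      ext_inf (ext_memB_right a) (ext_const _))

theorem ext_isFunOnB_right (f : BName B) : Ext (fun d => isFunOnB f d) := by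
  refine ext_inf (ext_inf ?_ ?_) ?_
  · exact ext_iInf fun z => ext_himp (ext_const _) (ext_iSup fun x => ext_iSup fun y =>
      ext_inf (ext_memB_right x) (ext_const _))
  · exact ext_iInf fun x => ext_himp (ext_memB_right x) (ext_const _)
  · exact ext_const _

theorem ext_isInjIntoB_mid (f k : BName B) : Ext (fun d => isInjIntoB f d k) :=
  ext_inf (ext_inf (ext_isFunOnB_right f) (ext_const _)) (ext_const _)

theorem ext_isInjIntoB_right (f d : BName B) : Ext (fun k => isInjIntoB f d k) :=
  ext_inf (ext_inf (ext_const _) (ext_iInf fun x => ext_iInf fun y =>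
    ext_himp (ext_const _) (ext_memB_right y))) (ext_const _)

theorem ext_cardLeB_left (k : BName B) : Ext (fun d => cardLeB d k) :=
  ext_iSup fun f => ext_isInjIntoB_mid f k

theorem ext_cardLeB_right (d : BName B) : Ext (fun k => cardLeB d k) :=
  ext_iSup fun f => ext_isInjIntoB_right f d

theorem ext_isFiniteB_left (w : BName B) : Ext (fun A => isFiniteB A w) :=
  ext_iSup fun k => ext_inf (ext_const _) (ext_cardLeB_left k)

theorem isPartitionSeqB_seqN (hdisj : ∀ n m (j j' : J n), j ≠ j' → c n m j ⊓ c n m j' = ⊥)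
    (hcov : ∀ n m, ⨆ j : J n, c n m j = ⊤) (p : B) :
    p ≤ isPartitionSeqB (seqN c) omegaN := by
  refine le_inf (isFunOnB_seqN p) ?_
  refine le_iInf fun n => le_iInf fun A => himp_intro fun q _ hq => ?_
  rw [relB_seqN] at hq
  refine iSup_elim hq fun k r _ hrk => ?_
  have hA := eqB.symm (hrk.trans inf_le_right)
  refine le_inf ?_ ?_
  · exact (ext_isPartitionB_left omegaN).subst hA (isPartitionB_partN hdisj hcov k r)
  · exact (ext_isFiniteB_left omegaN).subst hA (isFiniteB_partN hdisj k r)

theorem ext_meetsAtMostB_left (A s : BName B) : Ext (fun x => meetsAtMostB x A s) :=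
  ext_iSup fun _ => ext_inf (ext_iInf fun _ => ext_iffB (ext_const _)
    (ext_inf (ext_const _) (ext_iSup fun m => ext_inf (ext_memB_right m) (ext_const _))))
    (ext_const _)

/-- Extraction: if `x` meets at most `n + 1` pieces, then no `n + 2` distinct pieces are met. -/
theorem meets_extract (hdisj : ∀ n m (j j' : J n), j ≠ j' → c n m j ⊓ c n m j' = ⊥)
    {n : ℕ} {x : ℕ → B} {q : B} (h : q ≤ meetsAtMostB (setN x) (partN c n) (natN (n + 1)))
    (i : Fin (n + 2) → J n) (hi : Function.Injective i) (m : Fin (n + 2) → ℕ)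
    (h2 : ∀ k, q ≤ x (m k) ⊓ c n (m k) (i k)) : q = ⊥ := by
  rw [eq_bot_iff]
  refine iSup_elim h fun C r hr hrC => ?_
  have hC := hrC.trans inf_le_left
  refine iSup_elim (hrC.trans inf_le_right) fun f s hs hsf => ?_
  have hsr : s ≤ q := hs.trans hr
  have hCs := hs.trans hC
  -- each piece `i k` is in `C`
  have hmem : ∀ k, s ≤ memB (pieceN c n (i k)) C := by
    intro k
    refine iffB_mpr (iInf_mp hCs _) ?_
    have hk := hsr.trans (h2 k)
    refine le_inf ?_ ?_
    · rw [memB_partN]
      exact iSup_intro (i k) (le_inf (iSup_intro (m k) (hk.trans inf_le_right))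
        (le_eqB_refl _ _))
    · refine iSup_intro (natN (m k)) (le_inf ?_ ?_)
      · rw [memB_natN_setN]; exact hk.trans inf_le_left
      · rw [pieceN, memB_natN_setN]; exact hk.trans inf_le_right
  have hfun : s ≤ isFunOnB f C := hsf.trans (inf_le_left.trans inf_le_left)
  have hval : s ≤ ⨅ x : BName B, ⨅ y : BName B, relB f x y ⇨ memB y (natN (n + 1)) :=
    hsf.trans (inf_le_left.trans inf_le_right)
  have hinj : s ≤ ⨅ x : BName B, ⨅ x' : BName B, ⨅ y : BName B,
      relB f x y ⊓ relB f x' y ⇨ eqB x x' := hsf.trans inf_le_right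
  have hex : ∀ k, s ≤ ⨆ t : Fin (n + 1), relB f (pieceN c n (i k)) (natN (t : ℕ)) := by
    intro k
    have h3 := himp_mp (iInf_mp (hfun.trans (inf_le_left.trans inf_le_right)) _) (hmem k)
    refine iSup_elim h3 fun y v hv hvy => ?_
    have h4 := himp_mp (iInf_mp (iInf_mp (hv.trans hval) _) _) hvy
    rw [memB_natN] at h4
    refine iSup_elim h4 fun t w hw hwt => ?_
    refine iSup_intro t ?_
    rw [relB_eq] at hvy ⊢
    exact memB_congr_left (opair_congr (le_eqB_refl _ _) hwt) (hw.trans hvy)
  refine finite_choice hex fun g v hv hg => ?_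
  obtain ⟨k, k', hne, hkk⟩ := Fintype.exists_ne_map_eq_of_card_lt g (by simp)
  have h3 := hg k
  have h4 := hg k'
  rw [← hkk] at h4
  have h5 := himp_mp (iInf_mp (iInf_mp (iInf_mp (hv.trans hinj) _) _) _) (le_inf h3 h4)
  have h6 : v ≤ ⨆ m, c n m (i k) :=
    iSup_intro (m k) (((hv.trans hsr).trans (h2 k)).trans inf_le_right)
  rw [piece_disj hdisj (fun h => hne (hi h)) h6 h5]

/-- The Laver property in terms of Boolean values. -/
theorem laver_extract {U : BName B} {b : B} (hU : b ≤ isLaverUltrafilterB U omegaN)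
    (hdisj : ∀ n m (j j' : J n), j ≠ j' → c n m j ⊓ c n m j' = ⊥)
    (hcov : ∀ n m, ⨆ j : J n, c n m j = ⊤) :
    b ≤ ⨆ x : ℕ → B, memB (setN x) U ⊓
      ⨅ n : ℕ, ⨅ i : Fin (n + 2) → J n, ⨅ _ : Function.Injective i, ⨅ m : Fin (n + 2) → ℕ,
        (⨅ k, x (m k) ⊓ c n (m k) (i k))ᶜ := by
  have h1 : b ≤ isUltrafilterB U omegaN := hU.trans (inf_le_left.trans inf_le_left)
  have h2 := himp_mp (iInf_mp (hU.trans inf_le_right) (seqN c))
    (isPartitionSeqB_seqN hdisj hcov b)
  refine iSup_elim h2 fun X q hq hqX => ?_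
  have hXU := hqX.trans inf_le_left
  have hX := hqX.trans inf_le_right
  have hsub : q ≤ subB X omegaN := by
    have h3 : q ≤ ⨅ x : BName B, memB x U ⇨ subB x omegaN :=
      (hq.trans h1).trans (inf_le_left.trans (inf_le_left.trans (inf_le_left.trans
        (inf_le_left.trans inf_le_left))))
    exact himp_mp (iInf_mp h3 X) hXU
  have heq := eqB_setN_of_sub hsub
  refine iSup_intro (fun m => memB (natN m) X) (le_inf ?_ ?_)
  · exact memB_congr_left heq hXU
  · refine le_iInf fun n => le_iInf fun i => le_iInf fun hi => le_iInf fun m => ?_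
    refine compl_intro fun r hr hr2 => ?_
    have h3 := himp_mp (iInf_mp (iInf_mp (iInf_mp (hr.trans hX) (natN n)) (partN c n))
      (natN (n + 1))) (le_inf ?_ ?_)
    · have h4 := (ext_meetsAtMostB_left _ _).subst (hr.trans heq) h3
      exact meets_extract hdisj h4 i hi m fun k => iInf_mp hr2 k
    · rw [relB_seqN]
      exact iSup_intro n (le_inf (le_eqB_refl _ _) (le_eqB_refl _ _))
    · rw [isSuccB_eq]
      exact le_eqB_refl _ _

end Part

end Pool.Agent.MPa4e7db
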